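import Pool.Agent.Lib_helper40.TDB.PermB

/-!
# Base case: counting
-/

set_option autoImplicit false

namespace Pool.Agent.TD

open Pool.Agent.CK

/-- the string `pk ++ y` -/
def jn (n : ℕ) (pk y : X n) : X (2 * n) :=
  ⟨pk.1 ++ y.1, by rw [List.length_append, pk.2, y.2]; omega⟩

theorem lf_jn (n : ℕ) (pk y : X n) : lf n (jn n pk y).1 (jn n pk y).2 = pk := by
  apply Subtype.ext
  show (pk.1 ++ y.1).take n = pk.1
  rw [List.take_left' pk.2]

theorem rg_jn (n : ℕ) (pk y : X n) : rg n (jn n pk y).1 (jn n pk y).2 = y := by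
  apply Subtype.ext
  show (pk.1 ++ y.1).drop n = y.1
  rw [List.drop_left' pk.2]

theorem jn_lf_rg (n : ℕ) (x : X (2 * n)) : jn n (lf n x.1 x.2) (rg n x.1 x.2) = x := by
  apply Subtype.ext
  show x.1.take n ++ x.1.drop n = x.1
  rw [List.take_append_drop]

/-- pairs (public key, challenge) -/
def eJ (n : ℕ) : X n × X n ≃ X (2 * n) where
  toFun p := jn n p.1 p.2
  invFun x := (lf n x.1 x.2, rg n x.1 x.2)
  left_inv p := by
    simp only [lf_jn, rg_jn]
  right_inv x := jn_lf_rg n x

theorem vv_jn (S : Sec) (n : ℕ) (pk y : X n) : vv S n (jn n pk y) = ((S.f n pk).symm y).1 := by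
  unfold vv
  rw [lf_jn, rg_jn]

open Classical in
/-- hits of the reduced trees for the first permutation -/
noncomputable def hG (S : Sec) (n : ℕ) (A : X (2 * n) → DT Str) (y : X n) : ℕ :=
  (Finset.univ.filter fun pk => QT.hit (S.g n) pk (cG S n (A (jn n pk y)))).card

open Classical in
/-- hits of the reduced trees for the permutation with key `pk` -/
noncomputable def hF (S : Sec) (n : ℕ) (A : X (2 * n) → DT Str) (pk : X n) : ℕ :=
  (Finset.univ.filter fun y => QT.hit (S.f n pk) y (cF S n pk (A (jn n pk y)))).card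

theorem hits_le (S : Sec) (n : ℕ) (A : X (2 * n) → DT Str) :
    hits n (vv S n) A (O0 S) ≤ (∑ y, hG S n A y) + ∑ pk, hF S n A pk := by
  classical
  have e1 : hits n (vv S n) A (O0 S) = ∑ pk : X n, ∑ y : X n,
      if (A (jn n pk y)).eval (O0 S) = ((S.f n pk).symm y).1 then 1 else 0 := by
    unfold hits
    rw [Finset.card_filter, ← Equiv.sum_comp (eJ n), Fintype.sum_prod_type]
    refine Finset.sum_congr rfl fun pk _ => Finset.sum_congr rfl fun y _ => ?_
    show (if (A (jn n pk y)).eval (O0 S) = vv S n (jn n pk y) then 1 else 0) = _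
    rw [vv_jn]
  have e2 : ∑ y, hG S n A y = ∑ pk : X n, ∑ y : X n,
      if QT.hit (S.g n) pk (cG S n (A (jn n pk y))) then 1 else 0 := by
    rw [Finset.sum_comm]
    refine Finset.sum_congr rfl fun y _ => ?_
    unfold hG
    rw [Finset.card_filter]
  have e3 : ∑ pk, hF S n A pk = ∑ pk : X n, ∑ y : X n,
      if QT.hit (S.f n pk) y (cF S n pk (A (jn n pk y))) then 1 else 0 := by
    refine Finset.sum_congr rfl fun y _ => ?_
    unfold hF
    rw [Finset.card_filter]
  rw [e1, e2, e3, ← Finset.sum_add_distrib]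
  refine Finset.sum_le_sum fun pk _ => ?_
  rw [← Finset.sum_add_distrib]
  refine Finset.sum_le_sum fun y _ => ?_
  by_cases h : (A (jn n pk y)).eval (O0 S) = ((S.f n pk).symm y).1
  · rw [if_pos h]
    rcases hit_cF S n pk y _ h with h | h
    · rw [if_pos (hit_cG S n pk _ h)]
      omega
    · rw [if_pos h]
      omega
  · rw [if_neg h]
    omega

/-! ## Resampling -/

theorem resample {Ω R : Type} [Fintype Ω] [Fintype R] (u : Ω → R → Ω) (p : Ω → R)
    (h1 : ∀ ω r, u (u ω r) (p ω) = ω) (h2 : ∀ ω r, p (u ω r) = r) (B : Ω → Prop) (K : ℕ)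
    [DecidablePred B]
    (hB : ∀ ω, K * (Finset.univ.filter fun r => B (u ω r)).card ≤ Fintype.card R) :
    K * (Finset.univ.filter B).card ≤ Fintype.card Ω := by
  let e : Ω × R ≃ Ω × R :=
    { toFun := fun x => (u x.1 x.2, p x.1)
      invFun := fun x => (u x.1 x.2, p x.1)
      left_inv := fun x => by simp only [h1, h2]
      right_inv := fun x => by simp only [h1, h2] }
  rcases isEmpty_or_nonempty Ω with hΩ | ⟨⟨ω0⟩⟩
  · rw [Finset.filter_eq_empty_iff.2 fun {ω} => (hΩ.false ω).elim]
    simp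
  have hR : 0 < Fintype.card R := Fintype.card_pos_iff.2 ⟨p ω0⟩
  have key : (∑ ω : Ω, (Finset.univ.filter fun r => B (u ω r)).card) =
      Fintype.card R * (Finset.univ.filter B).card := by
    have a1 : (∑ ω : Ω, (Finset.univ.filter fun r => B (u ω r)).card) =
        ∑ x : Ω × R, if B (e x).1 then 1 else 0 := by
      rw [Fintype.sum_prod_type]
      refine Finset.sum_congr rfl fun ω _ => ?_
      rw [Finset.card_filter]
      rfl
    rw [a1, Equiv.sum_comp e fun x : Ω × R => if B x.1 then 1 else 0, Fintype.sum_prod_type_right,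
      Finset.card_filter]
    have a2 := Finset.sum_const (s := (Finset.univ : Finset R)) (∑ ω : Ω, if B ω then 1 else 0)
    rw [Finset.card_univ, smul_eq_mul] at a2
    exact a2
  have h3 : Fintype.card R * (K * (Finset.univ.filter B).card) ≤
      Fintype.card R * Fintype.card Ω := by
    calc Fintype.card R * (K * (Finset.univ.filter B).card)
        = K * ∑ ω : Ω, (Finset.univ.filter fun r => B (u ω r)).card := by rw [key]; ring
      _ = ∑ ω : Ω, K * (Finset.univ.filter fun r => B (u ω r)).card := Finset.mul_sum _ _ _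
      _ ≤ ∑ _ω : Ω, Fintype.card R := Finset.sum_le_sum fun ω _ => hB ω
      _ = Fintype.card R * Fintype.card Ω := by
          rw [Finset.sum_const, Finset.card_univ, smul_eq_mul, mul_comm]
  exact Nat.le_of_mul_le_mul_left h3 hR

/-! ## Secrets of bounded length -/

/-- secrets of length at most `N` -/
abbrev OM (N : ℕ) : Type :=
  (∀ m : Fin (N + 1), Equiv.Perm (X m)) × (∀ m : Fin (N + 1), X m → Equiv.Perm (X m))

open Classical in
noncomputable instance instFintypeOM (N : ℕ) : Fintype (OM N) := inferInstance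

/-- the secrets given by an element of `OM N` -/
def SO (N : ℕ) (ω : OM N) : Sec where
  g m := if h : m < N + 1 then ω.1 ⟨m, h⟩ else 1
  f m := if h : m < N + 1 then ω.2 ⟨m, h⟩ else fun _ => 1

open Classical in
/-- change the first permutation of length `n` -/
noncomputable def uG (N : ℕ) (n : Fin (N + 1)) (ω : OM N) (r : Equiv.Perm (X n)) : OM N :=
  (Function.update ω.1 n r, ω.2)

open Classical in
/-- change the permutation with key `pk` -/
noncomputable def uF (N : ℕ) (n : Fin (N + 1)) (pk : X n) (ω : OM N) (r : Equiv.Perm (X n)) :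
    OM N :=
  (ω.1, Function.update ω.2 n (Function.update (ω.2 n) pk r))

theorem SO_g (N : ℕ) (ω : OM N) (n : Fin (N + 1)) : (SO N ω).g n = ω.1 n := by
  show (if h : (n : ℕ) < N + 1 then ω.1 ⟨n, h⟩ else (1 : Equiv.Perm (X (n : ℕ)))) = _
  rw [dif_pos n.2]

theorem SO_f (N : ℕ) (ω : OM N) (n : Fin (N + 1)) : (SO N ω).f n = ω.2 n := by
  show (if h : (n : ℕ) < N + 1 then ω.2 ⟨n, h⟩ else
    fun _ : X (n : ℕ) => (1 : Equiv.Perm (X (n : ℕ)))) = _
  rw [dif_pos n.2]

theorem AgG_uG (N : ℕ) (n : Fin (N + 1)) (ω : OM N) (r : Equiv.Perm (X n)) :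
    AgG (SO N ω) (SO N (uG N n ω r)) n := by
  refine ⟨rfl, fun m hm => ?_⟩
  show (if h : m < N + 1 then ω.1 ⟨m, h⟩ else (1 : Equiv.Perm (X m))) =
    if h : m < N + 1 then (Function.update ω.1 n r : ∀ m : Fin (N + 1), Equiv.Perm (X m)) ⟨m, h⟩
      else (1 : Equiv.Perm (X m))
  by_cases h : m < N + 1
  · rw [dif_pos h, dif_pos h, Function.update_of_ne fun e => hm (congrArg Fin.val e)]
  · rw [dif_neg h, dif_neg h]

theorem AgF_uF (N : ℕ) (n : Fin (N + 1)) (pk : X n) (ω : OM N) (r : Equiv.Perm (X n)) :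
    AgF (SO N ω) (SO N (uF N n pk ω r)) n pk := by
  refine ⟨rfl, fun m hm => ?_, fun pk' hpk => ?_⟩
  · show (if h : m < N + 1 then ω.2 ⟨m, h⟩ else fun _ : X m => (1 : Equiv.Perm (X m))) =
      if h : m < N + 1 then (Function.update ω.2 n (Function.update (ω.2 n) pk r) :
        ∀ m : Fin (N + 1), X m → Equiv.Perm (X m)) ⟨m, h⟩
        else fun _ : X m => (1 : Equiv.Perm (X m))
    by_cases h : m < N + 1
    · rw [dif_pos h, dif_pos h, Function.update_of_ne fun e => hm (congrArg Fin.val e)]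
    · rw [dif_neg h, dif_neg h]
  · rw [SO_f, SO_f]
    show _ = Function.update ω.2 n (Function.update (ω.2 n) pk r) n pk'
    rw [Function.update_self, Function.update_of_ne hpk]

theorem card_X_TD (n : ℕ) : Fintype.card (X n) = 2 ^ n := by
  have h : Fintype.card (List.Vector Bool n) = 2 ^ n := by
    rw [card_vector]
    simp
  rw [← h]
  rfl

open Classical in
theorem count_G (N : ℕ) (n : Fin (N + 1)) (A : X (2 * (n : ℕ)) → DT Str) (d k : ℕ)
    (hd : ∀ x, (A x).depth ≤ d) (hk : 18 * 2 ^ (n : ℕ) ≤ k ^ 2) (y : X n) :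
    2 ^ k * (Finset.univ.filter fun ω : OM N => k * (d + 2) ≤ hG (SO N ω) n A y).card ≤
      Fintype.card (OM N) := by
  refine resample (uG N n) (fun ω => ω.1 n) (fun ω r => ?_) (fun ω r => ?_) _ _ fun ω => ?_
  · unfold uG
    simp
  · unfold uG
    simp
  · have h := perm_base (fun pk => cG (SO N ω) n (A (jn n pk y))) (d + 1) k
      (fun pk => cG_dep _ _ _ _ ((hd _).trans (Nat.le_succ d))) (by rw [card_X_TD]; exact hk)
    rw [Fintype.card_perm]
    refine le_trans (le_of_eq ?_) h
    congr 2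
    ext r
    simp only [Finset.mem_filter, Finset.mem_univ, true_and]
    unfold hG
    have e : (SO N (uG N n ω r)).g n = r := by
      rw [SO_g]
      unfold uG
      simp
    rw [e]
    simp only [← cG_congr (SO N ω) (SO N (uG N n ω r)) n (AgG_uG N n ω r)]

open Classical in
theorem count_F (N : ℕ) (n : Fin (N + 1)) (A : X (2 * (n : ℕ)) → DT Str) (d k : ℕ)
    (hd : ∀ x, (A x).depth ≤ d) (hk : 18 * 2 ^ (n : ℕ) ≤ k ^ 2) (pk : X n) :
    2 ^ k * (Finset.univ.filter fun ω : OM N => k * (d + 2) ≤ hF (SO N ω) n A pk).card ≤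
      Fintype.card (OM N) := by
  refine resample (uF N n pk) (fun ω => ω.2 n pk) (fun ω r => ?_) (fun ω r => ?_) _ _ fun ω => ?_
  · unfold uF
    simp
  · unfold uF
    simp
  · have h := perm_base (fun y => cF (SO N ω) n pk (A (jn n pk y))) (d + 1) k
      (fun y => cF_dep _ _ _ _ _ (hd _)) (by rw [card_X_TD]; exact hk)
    rw [Fintype.card_perm]
    refine le_trans (le_of_eq ?_) h
    congr 2
    ext r
    simp only [Finset.mem_filter, Finset.mem_univ, true_and]
    unfold hF
    have e : (SO N (uF N n pk ω r)).f n pk = r := by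
      rw [SO_f]
      unfold uF
      simp
    rw [e]
    simp only [← cF_congr (SO N ω) (SO N (uF N n pk ω r)) n pk (AgF_uF N n pk ω r)]

end Pool.Agent.TD
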