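import Pool.Agent.Lib_helper40.TDB.UP
import Pool.Agent.Lib_helper40.TDB.PermC
import Pool.Agent.Lib_helper64.TD.Notions

/-!
# Trapdoor permutations: correctness and translation of the security game
-/

set_option autoImplicit false

namespace Pool.Agent.TD

open Pool.Agent.CK

/-- The number of the pairs `(td, x)` of strings of length `n` for which the program `c` with
oracle `O`, started on the public key `pk = G td` followed by `F (pk x)`, with advice `w`, has the
output `x` after `t` steps. -/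
noncomputable def inversions (O : Lang) (G F : Str → Str) (n : ℕ) (c : Cmd) (w : Str) (t : ℕ) :
    ℕ :=
  {p : Str × Str | p.1.length = n ∧ p.2.length = n ∧
    (run O c (G p.1 ++ F (G p.1 ++ p.2)) w t).2 0 = p.2}.ncard

theorem bijOn_perm {n : ℕ} {f : Str → Str} (π : Equiv.Perm (X n))
    (h : ∀ x : X n, f x.1 = (π x).1) : Set.BijOn f {x | x.length = n} {y | y.length = n} := by
  refine ⟨fun x hx => ?_, fun x hx x' hx' he => ?_, fun y hy => ?_⟩
  · have := h ⟨x, hx⟩
    show (f x).length = n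
    rw [this]
    exact (π _).2
  · have h1 := h ⟨x, hx⟩
    have h2 := h ⟨x', hx'⟩
    have h3 : π ⟨x, hx⟩ = π ⟨x', hx'⟩ := Subtype.ext (by rw [← h1, ← h2]; exact he)
    exact congrArg Subtype.val (π.injective h3)
  · refine ⟨(π.symm ⟨y, hy⟩).1, (π.symm ⟨y, hy⟩).2, ?_⟩
    rw [h, Equiv.apply_symm_apply]

theorem FF_append (S : Sec) (n : ℕ) (pk x : X n) : FF S (pk.1 ++ x.1) = (S.f n pk x).1 := by
  have hl : (pk.1 ++ x.1).length = 2 * n := by rw [List.length_append, pk.2, x.2]; omega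
  rw [FF_of S n _ hl]
  have h1 : lf n (pk.1 ++ x.1) hl = pk := Subtype.ext (List.take_left' pk.2)
  have h2 : rg n (pk.1 ++ x.1) hl = x := Subtype.ext (List.drop_left' pk.2)
  rw [h1, h2]

theorem HH_append (S : Sec) (n : ℕ) (td y : X n) :
    HH S (td.1 ++ y.1) = ((S.f n (S.g n td)).symm y).1 := by
  have hl : (td.1 ++ y.1).length = 2 * n := by rw [List.length_append, td.2, y.2]; omega
  rw [HH_of S n _ hl]
  have h1 : lf n (td.1 ++ y.1) hl = td := Subtype.ext (List.take_left' td.2)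
  have h2 : rg n (td.1 ++ y.1) hl = y := Subtype.ext (List.drop_left' td.2)
  rw [h1, h2]

theorem GG_sub (S : Sec) (n : ℕ) (td : X n) : GG S td.1 = (S.g n td).1 :=
  GG_of S n td.1 td.2

theorem tdp (S : Sec) (Tab : ℕ → Str → Str) :
    TrapdoorPermutations (orc S Tab) (GG S) (FF S) (HH S) where
  inFP_G := inFP_GG S Tab
  inFP_F := inFP_FF S Tab
  inFP_H := inFP_HH S Tab
  bij_G n := bijOn_perm (S.g n) fun x => GG_sub S n x
  bij_F pk := bijOn_perm (S.f pk.length ⟨pk, rfl⟩) fun x => FF_append S pk.length ⟨pk, rfl⟩ x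
  inv td x hx := by
    have h1 : GG S td = (S.g td.length ⟨td, rfl⟩).1 := GG_sub S td.length ⟨td, rfl⟩
    have h2 : FF S ((S.g td.length ⟨td, rfl⟩).1 ++ x) =
        (S.f td.length (S.g td.length ⟨td, rfl⟩) ⟨x, hx⟩).1 :=
      FF_append S td.length (S.g td.length ⟨td, rfl⟩) ⟨x, hx⟩
    have h3 : HH S (td ++ (S.f td.length (S.g td.length ⟨td, rfl⟩) ⟨x, hx⟩).1) =
        ((S.f td.length (S.g td.length ⟨td, rfl⟩)).symm
          (S.f td.length (S.g td.length ⟨td, rfl⟩) ⟨x, hx⟩)).1 :=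
      HH_append S td.length ⟨td, rfl⟩ (S.f td.length (S.g td.length ⟨td, rfl⟩) ⟨x, hx⟩)
    rw [h1, h2, h3, Equiv.symm_apply_apply]

/-- challenges: public key and value -/
def eC (S : Sec) (n : ℕ) : X n × X n ≃ X (2 * n) :=
  (((S.g n).prodShear (S.f n ∘ S.g n)).trans (Equiv.refl _)).trans (eJ n)

theorem eC_val (S : Sec) (n : ℕ) (p : X n × X n) :
    (eC S n p).1 = GG S p.1.1 ++ FF S (GG S p.1.1 ++ p.2.1) := by
  rw [GG_sub, FF_append]
  rfl

theorem vv_eC (S : Sec) (n : ℕ) (p : X n × X n) : vv S n (eC S n p) = p.2.1 := by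
  have : eC S n p = jn n (S.g n p.1) (S.f n (S.g n p.1) p.2) := rfl
  rw [this, vv_jn, Equiv.symm_apply_apply]

/-- The security game in terms of trapdoors and arguments. -/
theorem inversions_eq (S : Sec) (O : Lang) (n : ℕ) (c : Cmd) (w : Str) (t : ℕ) :
    inversions O (GG S) (FF S) n c w t = (Finset.univ.filter fun x : X (2 * n) =>
      (run O c x.1 w t).2 0 = vv S n x).card := by
  classical
  have h1 : (Finset.univ.filter fun x : X (2 * n) =>
      (run O c x.1 w t).2 0 = vv S n x) = (Finset.univ.filter fun p : X n × X n =>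
        (run O c (GG S p.1.1 ++ FF S (GG S p.1.1 ++ p.2.1)) w t).2 0 = p.2.1).map
          (eC S n).toEmbedding := by
    ext x
    simp only [Finset.mem_filter, Finset.mem_univ, true_and, Finset.mem_map_equiv]
    rw [← eC_val, ← vv_eC, Equiv.apply_symm_apply]
  rw [h1, Finset.card_map]
  have h2 : {p : Str × Str | p.1.length = n ∧ p.2.length = n ∧
      (run O c (GG S p.1 ++ FF S (GG S p.1 ++ p.2)) w t).2 0 = p.2} =
      (fun p : X n × X n => ((p.1.1, p.2.1) : Str × Str)) '' ((Finset.univ.filter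
        fun p : X n × X n => (run O c (GG S p.1.1 ++ FF S (GG S p.1.1 ++ p.2.1)) w t).2 0 = p.2.1 :
          Finset (X n × X n)) : Set (X n × X n)) := by
    ext p
    constructor
    · rintro ⟨h1, h2, h3⟩
      exact ⟨(⟨p.1, h1⟩, ⟨p.2, h2⟩), Finset.mem_coe.2 (Finset.mem_filter.2
        ⟨Finset.mem_univ _, h3⟩), rfl⟩
    · rintro ⟨q, hq, rfl⟩
      exact ⟨q.1.2, q.2.2, (Finset.mem_filter.1 (Finset.mem_coe.1 hq)).2⟩
  unfold inversions
  rw [h2, Set.ncard_image_of_injective, Set.ncard_coe_finset]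
  intro p q h
  simp only [Prod.mk.injEq] at h
  exact Prod.ext (Subtype.ext h.1) (Subtype.ext h.2)

theorem secure_of (S : Sec) (Tab : ℕ → Str → Str) (T : ℕ → ℕ)
    (h : ∀ c : Cmd, ∀ᶠ n : ℕ in Filter.atTop, ∀ w : Str, w.length ≤ T n → ∀ t ≤ T n,
      T n * (Finset.univ.filter fun x : X (2 * n) =>
        (run (orc S Tab) c x.1 w t).2 0 = vv S n x).card < 4 ^ n) :
    Secure (orc S Tab) (GG S) (FF S) T := by
  intro c
  filter_upwards [h c] with n hn w hw t ht
  have h1 := hn w hw t ht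
  rw [← inversions_eq] at h1
  exact h1

end Pool.Agent.TD
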