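import Pool.Agent.Lib_helper40.TDB.Prog

/-!
# Unambiguous nondeterministic polynomial time from typed verifiers

(The construction is that of `CKP.inNP_of`; the machine also rejects witnesses that are too long.)
-/

set_option autoImplicit false

namespace Pool.Agent.TD

open Pool.Agent.CK Pool.Agent.CKP

variable {O : Lang}

/-- the program of `inUP_of` -/
def upP (pU pV : Cmd) : Cmd :=
  .seq (npP pU pV) (.cond 1 .skip (.push 0 false) (.push 0 false))

theorem inUP_of {A : Lang} {V : List Bool × List Bool → Bool} (hV : PTime O V) {B : ℕ → ℕ}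
    (hB : UPoly O B)
    (h1 : ∀ x, A x = true → ∃ y, y.length ≤ B x.length ∧ V (x, y) = true)
    (h2 : ∀ x y, V (x, y) = true → A x = true)
    (h3 : ∀ x y y', V (x, y) = true → V (x, y') = true → y = y') : InUP O A := by
  have hV' : PTime O (fun q : List Bool × List Bool => V (q.2, q.1)) :=
    hV.comp (PTime.id.snd.pair PTime.id.fst)
  have hU : PTime O (fun x : List Bool => (List.replicate (B x.length) (), x)) :=
    (hB.comp (PTime.id (α := List Bool))).pair PTime.id
  obtain ⟨QB, hQB⟩ := hB.bound
  obtain ⟨FV, ⟨pV, mV, PV, _, _, hV1⟩, hFV⟩ := hV'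
  obtain ⟨FU, ⟨pU, mU, PU, _, _, hU1⟩, hFU⟩ := hU
  obtain ⟨k, hk⟩ := exists_pow (16 * Polynomial.X + 45 + 23 * QB +
    PU.comp (4 * Polynomial.X + 1) + PV.comp (4 * QB + 4 * Polynomial.X + 3))
  refine ⟨upP pU pV, k, ?_⟩
  -- the run
  have hrun : ∀ x y : List Bool, ∃ t ≤ (x.length + 2) ^ k, ∃ σ' : Store, Exec O
      (upP pU pV) (init x y) σ' t ∧ σ' 0 =
        if y.drop (B x.length) = [] then (toD (V (x, y.take (B x.length)))).enc else
          false :: (toD (V (x, y.take (B x.length)))).enc := by
    intro x y
    have hi : init x y = S4 (fun _ => []) x y [] [] := by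
      funext r
      match r with
      | 0 => rfl
      | 1 => rfl
      | 2 => rfl
      | 3 => rfl
      | n + 4 => rfl
    have hS : ∀ a b r, 2 ≤ r → S4 (fun _ => []) a b [] [] r = [] := by
      intro a b r hr
      match r, hr with
      | 2, _ => rfl
      | 3, _ => rfl
      | n + 4, _ => rfl
    set N := B x.length with hN
    have e1 : Ex O (mv 0 2) (init x y) (S4 (fun _ => []) [] y x.reverse []) (5 * x.length + 1) := by
      have := mv_ex (O := O) (r := 0) (s := 2) (by decide) x (init x y) rfl
      rw [hi, S4_u2, S4_u0] at this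
      rw [hi]
      simpa [S4] using this
    have e2 : Ex O (.push 0 false) (S4 (fun _ => []) [] y x.reverse [])
        (S4 (fun _ => []) [false] y x.reverse []) 1 := by
      have := Ex.push (O := O) 0 false (S4 (fun _ => []) [] y x.reverse [])
      rw [S4_u0] at this
      exact this
    have e3 : Ex O (conv 2) (S4 (fun _ => []) [false] y x.reverse [])
        (S4 (fun _ => []) (toD x).enc y [] []) (11 * x.length + 1) := by
      have := conv_ex (O := O) (r := 2) (by decide) x.reverse [] []
        (S4 (fun _ => []) [false] y x.reverse []) rfl rfl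
      rw [S4_u2, S4_u0] at this
      simpa using this
    have e4 : Ex O (ren ren1 pU) (S4 (fun _ => []) (toD x).enc y [] [])
        (S4 (fun _ => []) (true :: ((toD (List.replicate N ())).enc ++ (toD x).enc)) y [] [])
        (PU.eval (toD x).size) := by
      have := ren_run hU1 (toD x) ⟨x, rfl⟩ (S4 (fun _ => []) (toD x).enc y [] []) rfl
        (hS _ _)
      rw [S4_u0, hFU] at this
      exact this
    have e5 : Ex O (.pop 0)
        (S4 (fun _ => []) (true :: ((toD (List.replicate N ())).enc ++ (toD x).enc)) y [] [])
        (S4 (fun _ => []) ((toD (List.replicate N ())).enc ++ (toD x).enc) y [] []) 1 := by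
      have := Ex.pop (O := O) 0 (S4 (fun _ => [])
        (true :: ((toD (List.replicate N ())).enc ++ (toD x).enc)) y [] [])
      rw [S4_u0] at this
      exact this
    have e6 : Ex O (.push 3 true)
        (S4 (fun _ => []) ((toD (List.replicate N ())).enc ++ (toD x).enc) y [] [])
        (S4 (fun _ => []) ((toD (List.replicate N ())).enc ++ (toD x).enc) y [] [true]) 1 := by
      have := Ex.push (O := O) 3 true (S4 (fun _ => [])
        ((toD (List.replicate N ())).enc ++ (toD x).enc) y [] [])
      rw [S4_u3] at this
      exact this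
    have e7 := takeB_ex (O := O) (fun _ => []) N (toD x).enc y []
    rw [List.append_nil] at e7
    have e8 : Ex O (.push 0 false)
        (S4 (fun _ => []) (toD x).enc (y.drop N) (y.take N).reverse [])
        (S4 (fun _ => []) (false :: (toD x).enc) (y.drop N) (y.take N).reverse []) 1 := by
      have := Ex.push (O := O) 0 false (S4 (fun _ => [])
        (toD x).enc (y.drop N) (y.take N).reverse [])
      rw [S4_u0] at this
      exact this
    have e9 : Ex O (conv 2)
        (S4 (fun _ => []) (false :: (toD x).enc) (y.drop N) (y.take N).reverse [])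
        (S4 (fun _ => []) ((toD (y.take N)).enc ++ (toD x).enc) (y.drop N) [] [])
        (11 * N + 1) := by
      have := conv_ex (O := O) (r := 2) (by decide) (y.take N).reverse [] (toD x).enc
        (S4 (fun _ => []) (false :: (toD x).enc) (y.drop N) (y.take N).reverse []) rfl rfl
      rw [S4_u2, S4_u0, List.reverse_reverse, List.append_nil] at this
      refine this.mono ?_
      rw [List.length_reverse, List.length_take]
      omega
    have e10 : Ex O (.push 0 true)
        (S4 (fun _ => []) ((toD (y.take N)).enc ++ (toD x).enc) (y.drop N) [] [])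
        (S4 (fun _ => []) (toD (y.take N, x)).enc (y.drop N) [] []) 1 := by
      have := Ex.push (O := O) 0 true (S4 (fun _ => [])
        ((toD (y.take N)).enc ++ (toD x).enc) (y.drop N) [] [])
      rw [S4_u0] at this
      exact this
    have e11 : Ex O (ren ren1 pV) (S4 (fun _ => []) (toD (y.take N, x)).enc (y.drop N) [] [])
        (S4 (fun _ => []) (toD (V (x, y.take N))).enc (y.drop N) [] [])
        (PV.eval (toD (y.take N, x)).size) := by
      have := ren_run hV1 (toD (y.take N, x)) ⟨_, rfl⟩
        (S4 (fun _ => []) (toD (y.take N, x)).enc (y.drop N) [] []) rfl (hS _ _)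
      rw [S4_u0, hFV] at this
      exact this
    have e12 : Ex O (.cond 1 .skip (.push 0 false) (.push 0 false))
        (S4 (fun _ => []) (toD (V (x, y.take N))).enc (y.drop N) [] [])
        (if y.drop N = [] then S4 (fun _ => []) (toD (V (x, y.take N))).enc (y.drop N) [] []
          else S4 (fun _ => []) (false :: (toD (V (x, y.take N))).enc) (y.drop N) [] [])
        2 := by
      have hp : Ex O (.push 0 false)
          (S4 (fun _ => []) (toD (V (x, y.take N))).enc (y.drop N) [] [])
          (S4 (fun _ => []) (false :: (toD (V (x, y.take N))).enc) (y.drop N) [] []) 1 := by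
        have := Ex.push (O := O) 0 false (S4 (fun _ => [])
          (toD (V (x, y.take N))).enc (y.drop N) [] [])
        rw [S4_u0] at this
        exact this
      cases hd : y.drop N with
      | nil =>
        rw [if_pos rfl]
        exact Ex.case_nil rfl (Ex.skip _)
      | cons b l =>
        rw [if_neg (by simp)]
        rw [hd] at hp
        cases b with
        | false => exact Ex.case_false (l := l) rfl hp
        | true => exact Ex.case_true (l := l) rfl hp
    obtain ⟨t, ht, he⟩ := (e1.seq (e2.seq (e3.seq (e4.seq (e5.seq (e6.seq (e7.seq (e8.seq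
      (e9.seq (e10.seq e11)))))))))).seq e12
    refine ⟨t, ht.trans (le_trans ?_ (hk x.length)), _, he, by split_ifs <;> rfl⟩
    have g1 := poly_mono PU (size_bits x)
    have g2 : (toD (y.take N, x)).size ≤ 4 * QB.eval x.length + 4 * x.length + 3 := by
      have g3 : (toD (y.take N, x)).size = (toD (y.take N)).size + (toD x).size + 1 := rfl
      have g4 := size_bits x
      have g5 := size_bits (y.take N)
      have g6 : (y.take N).length ≤ N := by rw [List.length_take]; omega
      have g7 := hQB x.length
      omega
    have g3 := poly_mono PV g2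
    have g4 := hQB x.length
    simp only [Polynomial.eval_comp, Polynomial.eval_add, Polynomial.eval_mul,
      Polynomial.eval_ofNat, Polynomial.eval_X, Polynomial.eval_one]
    omega
  have hacc : ∀ x y : List Bool, Halts O (upP pU pV) x y ((x.length + 2) ^ k) ∧
      (Accepts O (upP pU pV) x y ((x.length + 2) ^ k) ↔
        y.length ≤ B x.length ∧ V (x, y) = true) := by
    intro x y
    obtain ⟨t, ht, σ', he, h0⟩ := hrun x y
    have := he.run ht
    unfold Halts Accepts
    rw [this]
    refine ⟨rfl, ?_⟩
    simp only [true_and]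
    rw [h0]
    by_cases hy : y.length ≤ B x.length
    · rw [if_pos (List.drop_eq_nil_of_le hy), List.take_of_length_le hy]
      simp only [hy, true_and]
      cases V (x, y) <;> simp [ToD.toD, D.enc]
    · rw [if_neg (fun h => hy (List.drop_eq_nil_iff.1 h))]
      simp [hy]
  have hBk : ∀ x : List Bool, B x.length ≤ (x.length + 2) ^ k := by
    intro x
    refine le_trans ?_ (hk x.length)
    have g4 := hQB x.length
    simp only [Polynomial.eval_comp, Polynomial.eval_add, Polynomial.eval_mul,
      Polynomial.eval_ofNat, Polynomial.eval_X, Polynomial.eval_one]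
    omega
  refine ⟨fun x y _ => (hacc x y).1, fun x => ⟨fun hx => ?_, fun hx => ?_⟩,
    fun x y y' _ _ hy hy' => ?_⟩
  · obtain ⟨y, hy, hVy⟩ := h1 x hx
    exact ⟨y, hy.trans (hBk x), ((hacc x y).2).mpr ⟨hy, hVy⟩⟩
  · obtain ⟨y, _, hy⟩ := hx
    exact h2 x _ (((hacc x y).2).mp hy).2
  · exact h3 x y y' (((hacc x y).2).mp hy).2 (((hacc x y').2).mp hy').2

theorem inUP_VV (S : Sec) (Tab : ℕ → Str → Str) : InUP (orc S Tab) (VV S) :=
  inUP_of (ptime_ver1 S (ptime_of_inFP (inFP_FF S Tab))) UPoly.id (ver1_exists S) (ver1_sound S)
    (ver1_unique S)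

theorem inUP_compl_VV (S : Sec) (Tab : ℕ → Str → Str) :
    InUP (orc S Tab) (fun w => !VV S w) :=
  inUP_of (ptime_ver0 S (ptime_of_inFP (inFP_FF S Tab))) UPoly.id (ver0_exists S) (ver0_sound S)
    (ver0_unique S)

end Pool.Agent.TD
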