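import Pool.Agent.Lib_helper40.TDB.Tdp

/-!
# The secret language is not in `P`
-/

set_option autoImplicit false

namespace Pool.Agent.TD

open Pool.Agent.CK Pool.Agent.CKP

variable {O : Lang} {γ : Type} [ToD γ]

theorem zipAny_unitv (n i : ℕ) (l : Str) (hl : l.length = n) (hi : i < n) :
    zipAny l (unitv n i) = l.getD i false := by
  have hl' : i < l.length := by omega
  have h2 : l.getD i false = l[i] := by
    rw [List.getD_eq_getElem?_getD, List.getElem?_eq_getElem hl', Option.getD_some]
  rw [h2]
  unfold zipAny unitv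
  rw [Bool.eq_iff_iff, List.any_eq_true]
  constructor
  · rintro ⟨b, hb, hb'⟩
    obtain ⟨k, hk, rfl⟩ := List.mem_iff_getElem.1 hb
    simp only [List.getElem_zipWith, List.getElem_map, List.getElem_range, id, Bool.and_eq_true,
      decide_eq_true_eq] at hb'
    obtain ⟨h3, rfl⟩ := hb'
    exact h3
  · intro h
    refine ⟨true, List.mem_iff_getElem.2 ⟨i, ?_, ?_⟩, rfl⟩
    · simp only [List.length_zipWith, List.length_map, List.length_range]
      omega
    · simp only [List.getElem_zipWith, List.getElem_map, List.getElem_range, decide_true,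
        Bool.and_true]
      exact h

/-- half of the length, in unary -/
def halfU (w : Str) : List Unit :=
  (w.foldl (fun (s : Bool × List Unit) _ => (!s.1, if s.1 = true then () :: s.2 else s.2))
    (false, [])).2

theorem halfU_aux : ∀ (w : Str) (b : Bool) (m : ℕ),
    (w.foldl (fun (s : Bool × List Unit) _ => (!s.1, if s.1 = true then () :: s.2 else s.2))
      (b, List.replicate m ())).2 =
      List.replicate (m + (w.length + if b = true then 1 else 0) / 2) ()
  | [], b, m => by cases b <;> simp
  | a :: w, b, m => by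
    rw [List.foldl_cons]
    cases b with
    | false =>
      have := halfU_aux w true m
      simp only [Bool.not_false, Bool.false_eq_true, if_false, List.length_cons, if_true] at this ⊢
      rw [this]
    | true =>
      have := halfU_aux w false (m + 1)
      simp only [Bool.not_true, if_true, Bool.false_eq_true, if_false, List.length_cons,
        List.replicate_succ] at this ⊢
      rw [this]
      have e : m + (w.length + 1 + 1) / 2 = m + 1 + (w.length + 0) / 2 := by omega
      rw [e]

theorem halfU_eq (w : Str) : halfU w = List.replicate (w.length / 2) () := by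
  have := halfU_aux w false 0
  simp only [Bool.false_eq_true, if_false, List.replicate_zero, Nat.zero_add, Nat.add_zero] at this
  exact this

theorem ptime_halfU {f : γ → Str} (hf : PTime O f) : PTime O (fun x => halfU (f x)) := by
  have h := PTime.foldl_add (l := f) (i := fun _ : γ => ((false, []) : Bool × List Unit))
    (s := fun (_ : γ) (s : Bool × List Unit) (_ : Bool) =>
      (!s.1, if s.1 = true then () :: s.2 else s.2)) hf (PTime.const _)
    ((PTime.id.snd.fst.fst).not.pair (PTime.ite PTime.id.snd.fst.fst
      ((PTime.const ()).cons PTime.id.snd.fst.snd) PTime.id.snd.fst.snd)) 4 (by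
      intro x b a _
      have h1 : sz (!b.1) ≤ 3 := by cases b.1 <;> simp
      have h2 : sz b = sz b.1 + sz b.2 + 1 := sz_pair b.1 b.2
      have h3 : 1 ≤ sz b.1 := sz_pos _
      have h4 : sz (if b.1 = true then () :: b.2 else b.2) ≤ sz b.2 + 2 := by
        split_ifs
        · rw [sz_cons]
          have : sz () = 1 := rfl
          omega
        · omega
      rw [sz_pair, Polynomial.eval_ofNat, h2]
      omega)
  exact h.snd

/-- find the secret bit by bit -/
def invF (V : Lang) (w : Str) : Str :=
  (rangeU (halfU w)).map fun i => V (w ++ (rangeU (halfU w)).map fun k =>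
    decide (k.length = i.length))

theorem ptime_invF {V : Lang} (hV : PTime O V) : PTime O (invF V) := by
  refine PTime.map (f := fun w i => V (w ++ (rangeU (halfU w)).map fun k =>
    decide (k.length = i.length))) (PTime.rangeU (ptime_halfU PTime.id)) ?_
  refine hV.comp ?_
  refine PTime.append PTime.id.fst ?_
  refine PTime.map (f := fun (p : Str × List Unit) k => decide (k.length = p.2.length))
    (PTime.rangeU (ptime_halfU PTime.id.fst)) ?_
  exact PTime.nat_eq (PTime.length PTime.id.snd) (PTime.length PTime.id.fst.snd)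

theorem VV_unitv (S : Sec) (n : ℕ) (x : X (2 * n)) (i : ℕ) (hi : i < n) :
    VV S (x.1 ++ unitv n i) = (vv S n x).getD i false := by
  have hl : (x.1 ++ unitv n i).length = 3 * n := by
    rw [List.length_append, x.2]
    unfold unitv
    rw [List.length_map, List.length_range]
    omega
  rw [VV_of S n _ hl, List.drop_left' x.2]
  have h1 : sct S n (x.1 ++ unitv n i) hl = vv S n x := by
    unfold sct
    congr 1
    apply Subtype.ext
    exact List.take_left' x.2
  rw [h1]
  exact zipAny_unitv n i _ ((S.f n _).symm _).2 hi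

theorem invF_VV (S : Sec) (n : ℕ) (x : X (2 * n)) : invF (VV S) x.1 = vv S n x := by
  have hl : (vv S n x).length = n := ((S.f n _).symm _).2
  unfold invF
  rw [halfU_eq, x.2, Nat.mul_div_cancel_left n (by norm_num), rangeU_replicate, List.map_map]
  apply List.ext_getElem
  · rw [List.length_map, List.length_range, hl]
  · intro i h1 h2
    rw [List.length_map, List.length_range] at h1
    rw [List.getElem_map, List.getElem_range]
    simp only [Function.comp_apply, List.map_map, List.length_replicate]
    have h3 := VV_unitv S n x i h1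
    have h4 : (vv S n x).getD i false = (vv S n x)[i] := by
      rw [List.getD_eq_getElem?_getD, List.getElem?_eq_getElem h2, Option.getD_some]
    rw [h4] at h3
    rw [← h3]
    congr 2
    unfold unitv
    refine List.map_congr_left fun k _ => ?_
    simp only [Function.comp_apply, List.length_replicate]

theorem growth_poly (k : ℕ) : ∃ N0, ∀ n, N0 ≤ n →
    (2 * n + 2) ^ k ≤ 2 ^ (n / (Nat.log 2 n) ^ 3) := by
  have h := tendsto_pow_const_div_const_pow_of_one_lt 4 (r := (2 : ℝ)) (by norm_num)
  have h1 : ∀ᶠ m : ℕ in Filter.atTop, (m : ℝ) ^ 4 / 2 ^ m < 1 / (8 * k + 1) :=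
    h.eventually_lt_const (by positivity)
  obtain ⟨m0, hm0⟩ := Filter.eventually_atTop.1 h1
  refine ⟨2 ^ (m0 + 3), fun n hn => ?_⟩
  set L := Nat.log 2 n with hL
  have hn0 : n ≠ 0 := by
    have := Nat.one_le_two_pow (n := m0 + 3)
    omega
  have hLm : m0 + 3 ≤ L := Nat.le_log_of_pow_le (by norm_num) hn
  have hlow : 2 ^ L ≤ n := Nat.pow_log_le_self 2 hn0
  have hup : n < 2 ^ (L + 1) := Nat.lt_pow_succ_log_self (by norm_num) n
  have h2 := hm0 (L + 3) (by omega)
  rw [div_lt_div_iff₀ (by positivity) (by positivity), one_mul] at h2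
  have h3 : (L + 3) ^ 4 * (8 * k + 1) < 2 ^ (L + 3) := by exact_mod_cast h2
  have h4 : k * (L + 3) ^ 4 ≤ 2 ^ L := by
    have e : 2 ^ (L + 3) = 8 * 2 ^ L := by rw [pow_add]; ring
    have e2 : (L + 3) ^ 4 * (8 * k + 1) = 8 * (k * (L + 3) ^ 4) + (L + 3) ^ 4 := by ring
    rw [e, e2] at h3
    omega
  have h5 : k * (L + 3) ≤ n / L ^ 3 := by
    rw [Nat.le_div_iff_mul_le (by have : 0 < L := by omega
                                  positivity)]
    calc k * (L + 3) * L ^ 3 ≤ k * (L + 3) * (L + 3) ^ 3 :=
          Nat.mul_le_mul_left _ (Nat.pow_le_pow_left (by omega) 3)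
      _ = k * (L + 3) ^ 4 := by ring
      _ ≤ 2 ^ L := h4
      _ ≤ n := hlow
  calc (2 * n + 2) ^ k ≤ (2 ^ (L + 3)) ^ k := by
        refine Nat.pow_le_pow_left ?_ k
        have e : 2 ^ (L + 3) = 4 * 2 ^ (L + 1) := by rw [pow_add, pow_add]; ring
        omega
    _ = 2 ^ (k * (L + 3)) := by rw [← pow_mul, mul_comm]
    _ ≤ _ := Nat.pow_le_pow_right (by norm_num) h5

/-- If the trapdoor permutations are secure, then the secret language is not in `P`. -/
theorem not_inP_VV (S : Sec) (Tab : ℕ → Str → Str)
    (h : Secure (orc S Tab) (GG S) (FF S) fun n => 2 ^ (n / (Nat.log 2 n) ^ 3)) :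
    ¬ InP (orc S Tab) (VV S) := by
  intro hV
  obtain ⟨c, k, hc⟩ := inFP_of (ptime_invF (ptime_of_inP hV))
  obtain ⟨n0, hn0⟩ := Filter.eventually_atTop.1 (h c)
  obtain ⟨N0, hN0⟩ := growth_poly k
  set n := max n0 N0 with hn
  have h1 := hN0 n (le_max_right _ _)
  have h2 : 2 ^ (n / (Nat.log 2 n) ^ 3) * inversions (orc S Tab) (GG S) (FF S) n c []
      ((2 * n + 2) ^ k) < 4 ^ n := hn0 n (le_max_left _ _) [] (by simp) _ h1
  rw [inversions_eq] at h2
  have h3 : (Finset.univ.filter fun x : X (2 * n) =>
      (run (orc S Tab) c x.1 [] ((2 * n + 2) ^ k)).2 0 = vv S n x) = Finset.univ := by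
    refine Finset.filter_true_of_mem fun x _ => ?_
    have := (hc x.1).2
    rw [x.2] at this
    rw [this, invF_VV]
  rw [h3, Finset.card_univ, card_X_TD, pow_mul] at h2
  norm_num at h2

end Pool.Agent.TD
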