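import Mathlib

/-!
# Inverting a random permutation on many points with few questions

A family of query trees `t y` of depth at most `d` which asks for the preimage of `y` under `π` for
at least `k * (d + 1)` points `y` exists for at most a fraction `2 ^ -k` of all permutations `π`.
-/

set_option autoImplicit false

namespace Pool.Agent.TD

/-- query trees for a map `Y → Y` -/
inductive QT (Y : Type) : Type
  | leaf
  | node (x : Y) (k : Y → QT Y)

namespace QT

variable {Y : Type}

/-- the run of the tree asks for a point with value `y` -/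
def hit (π : Y → Y) (y : Y) : QT Y → Prop
  | leaf => False
  | node x k => π x = y ∨ hit π y (k (π x))

/-- depth at most `d` -/
def Dep : ℕ → QT Y → Prop
  | _, leaf => True
  | 0, node _ _ => False
  | d + 1, node _ k => ∀ a, Dep d (k a)

/-- values obtained in the run -/
def vals (π : Y → Y) : QT Y → List Y
  | leaf => []
  | node x k => π x :: vals π (k (π x))

/-- The run asks for a point with value `y`, and the values in `J` obtained before are of smaller
rank. -/
def HF (rk : Y → ℕ) (π : Y → Y) (J : Finset Y) (y : Y) : QT Y → Prop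
  | leaf => False
  | node x k => π x = y ∨ ((π x ∈ J → rk (π x) < rk y) ∧ HF rk π J y (k (π x)))

theorem vals_length (π : Y → Y) : ∀ (t : QT Y) (d : ℕ), Dep d t → (vals π t).length ≤ d
  | leaf, _, _ => by simp [vals]
  | node x k, 0, h => by simp [Dep] at h
  | node x k, d + 1, h => by
    simp only [vals, List.length_cons]
    exact Nat.succ_le_succ (vals_length π (k (π x)) d (h _))

theorem HF_of_hit (rk : Y → ℕ) (π : Y → Y) (J : Finset Y) (y : Y) : ∀ t : QT Y, hit π y t →
    (∀ y' ∈ vals π t, y' ∈ J → y' ≠ y → rk y' < rk y) → HF rk π J y t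
  | leaf, h, _ => by simp [hit] at h
  | node x k, h, hv => by
    by_cases hx : π x = y
    · exact Or.inl hx
    · refine Or.inr ⟨fun hJ => hv _ (by simp [vals]) hJ hx, ?_⟩
      refine HF_of_hit rk π J y _ (h.resolve_left hx) fun y' hy' => hv y' ?_
      simp only [vals, List.mem_cons]
      exact Or.inr hy'

theorem symm_eq_of_HF (rk : Y → ℕ) (π π' : Equiv.Perm Y) (I J : Finset Y)
    (hI : ∀ x, x ∈ I ↔ π x ∈ J) (hI' : ∀ x, x ∈ I ↔ π' x ∈ J) (hoff : ∀ x, x ∉ I → π x = π' x)
    (y : Y) (hy : y ∈ J) (ih : ∀ y' ∈ J, rk y' < rk y → π.symm y' = π'.symm y') :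
    ∀ t : QT Y, HF rk π J y t → HF rk π' J y t → π.symm y = π'.symm y
  | leaf, h, _ => by simp [HF] at h
  | node x k, h, h' => by
    by_cases hx : x ∈ I
    · rcases h with h | ⟨h1, h2⟩
      · rcases h' with h' | ⟨h1', h2'⟩
        · rw [← h, Equiv.symm_apply_apply, h, ← h', Equiv.symm_apply_apply]
        · have hJ := (hI' x).1 hx
          have hlt := h1' hJ
          have e := ih _ hJ hlt
          rw [Equiv.symm_apply_apply] at e
          have e2 : π x = π' x := by
            have := congrArg π e
            rw [Equiv.apply_symm_apply] at this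
            exact this.symm
          rw [← e2, h] at hlt
          exact absurd hlt (lt_irrefl _)
      · have hJ := (hI x).1 hx
        have hlt := h1 hJ
        have e := ih _ hJ hlt
        rw [Equiv.symm_apply_apply] at e
        have e2 : π' x = π x := by
          have := congrArg π' e
          rwa [Equiv.apply_symm_apply] at this
        rcases h' with h' | ⟨h1', h2'⟩
        · rw [← e2, h'] at hlt
          exact absurd hlt (lt_irrefl _)
        · rw [e2] at h2'
          exact symm_eq_of_HF rk π π' I J hI hI' hoff y hy ih (k (π x)) h2 h2'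
    · have e := hoff x hx
      have hne : π x ≠ y := fun he => hx ((hI x).2 (he ▸ hy))
      have h2 := (h.resolve_left hne).2
      have h2' := (h'.resolve_left (e ▸ hne)).2
      rw [← e] at h2'
      exact symm_eq_of_HF rk π π' I J hI hI' hoff y hy ih (k (π x)) h2 h2'

end QT

open QT

variable {Y : Type}

theorem perm_determine (rk : Y → ℕ) (t : Y → QT Y) (π π' : Equiv.Perm Y) (I J : Finset Y)
    (hI : ∀ x, x ∈ I ↔ π x ∈ J) (hI' : ∀ x, x ∈ I ↔ π' x ∈ J) (hoff : ∀ x, x ∉ I → π x = π' x)
    (h : ∀ y ∈ J, HF rk π J y (t y)) (h' : ∀ y ∈ J, HF rk π' J y (t y)) : π = π' := by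
  have key : ∀ n : ℕ, ∀ y ∈ J, rk y = n → π.symm y = π'.symm y := by
    intro n
    induction n using Nat.strong_induction_on with
    | _ n ih =>
      intro y hy hn
      exact symm_eq_of_HF rk π π' I J hI hI' hoff y hy
        (fun y' hy' hlt => ih (rk y') (hn ▸ hlt) y' hy' rfl) (t y) (h y hy) (h' y hy)
  ext x
  by_cases hx : x ∈ I
  · have e := key _ (π x) ((hI x).1 hx) rfl
    rw [Equiv.symm_apply_apply] at e
    have := congrArg π' e
    rw [Equiv.apply_symm_apply] at this
    exact this.symm
  · exact hoff x hx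

theorem greedy_J [DecidableEq Y] (rk : Y → ℕ) (hrk : Function.Injective rk) (N : Y → Finset Y)
    (d : ℕ) (hN : ∀ y, (N y).card ≤ d) : ∀ (k : ℕ) (H : Finset Y), k * (d + 1) ≤ H.card →
    ∃ J ⊆ H, J.card = k ∧ ∀ y ∈ J, ∀ y' ∈ J, y' ∈ N y → y' ≠ y → rk y' < rk y
  | 0, H, _ => ⟨∅, by simp, by simp, by simp⟩
  | k + 1, H, hH => by
    have hpos : 0 < H.card := lt_of_lt_of_le (by positivity) hH
    obtain ⟨y0, hy0, hmin⟩ := H.exists_min_image rk (Finset.card_pos.1 hpos)
    have hc : k * (d + 1) ≤ (H \ (insert y0 (N y0))).card := by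
      have h1 := Finset.card_le_card_sdiff_add_card (s := H) (t := insert y0 (N y0))
      have h2 : (insert y0 (N y0)).card ≤ d + 1 :=
        (Finset.card_insert_le _ _).trans (Nat.succ_le_succ (hN y0))
      have h3 : (k + 1) * (d + 1) = k * (d + 1) + (d + 1) := by ring
      omega
    obtain ⟨J, hJ, hJc, hJf⟩ := greedy_J rk hrk N d hN k _ hc
    have hy0J : y0 ∉ J := fun h => by
      have := hJ h
      simp at this
    refine ⟨insert y0 J, ?_, ?_, ?_⟩
    · intro y hy
      rcases Finset.mem_insert.1 hy with rfl | hy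
      · exact hy0
      · exact (Finset.mem_sdiff.1 (hJ hy)).1
    · rw [Finset.card_insert_of_notMem hy0J, hJc]
    · intro y hy y' hy' hN' hne
      rcases Finset.mem_insert.1 hy with ey | hyJ
      · rcases Finset.mem_insert.1 hy' with ey' | hyJ'
        · exact absurd (ey'.trans ey.symm) hne
        · exact absurd (Finset.mem_insert_of_mem (ey ▸ hN')) (Finset.mem_sdiff.1 (hJ hyJ')).2
      · rcases Finset.mem_insert.1 hy' with ey' | hyJ'
        · rw [ey']
          exact lt_of_le_of_ne (hmin y (Finset.mem_sdiff.1 (hJ hyJ)).1) fun e =>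
            hne (ey'.trans (hrk e))
        · exact hJf y hyJ y' hyJ' hN' hne

open Classical in
theorem card_fixed_IJ [Fintype Y] (rk : Y → ℕ) (t : Y → QT Y) (I J : Finset Y)
    (hIJ : I.card = J.card) :
    (Finset.univ.filter fun π : Equiv.Perm Y => (∀ x, x ∈ I ↔ π x ∈ J) ∧
      ∀ y ∈ J, HF rk π J y (t y)).card ≤ (Fintype.card Y - J.card).factorial := by
  have hc : Fintype.card {x // x ∉ I} = Fintype.card Y - J.card := by
    rw [Fintype.card_subtype_compl, Fintype.card_coe, hIJ]
  have hc' : Fintype.card {x // x ∉ J} = Fintype.card Y - J.card := by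
    rw [Fintype.card_subtype_compl, Fintype.card_coe]
  have e0 : {x // x ∉ I} ≃ {x // x ∉ J} := Fintype.equivOfCardEq (hc.trans hc'.symm)
  have hcard : Fintype.card ({x // x ∉ I} ≃ {x // x ∉ J}) = (Fintype.card Y - J.card).factorial := by
    rw [Fintype.card_equiv e0, hc]
  rw [← hcard, ← Finset.card_univ]
  refine Finset.card_le_card_of_injOn
    (fun π => if h : ∀ x, x ∈ I ↔ π x ∈ J then
      π.subtypeEquiv (fun x => not_congr (h x)) else e0) (fun _ _ => Finset.mem_coe.2 (Finset.mem_univ _)) ?_
  intro π hπ π' hπ' he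
  simp only [Finset.coe_filter, Finset.mem_univ, true_and, Set.mem_ofPred_eq] at hπ hπ'
  simp only [dif_pos hπ.1, dif_pos hπ'.1] at he
  refine perm_determine rk t π π' I J hπ.1 hπ'.1 (fun x hx => ?_) hπ.2 hπ'.2
  have := congrArg (fun e : {x // x ∉ I} ≃ {x // x ∉ J} => (e ⟨x, hx⟩).1) he
  simpa using this

open Classical in
theorem card_exists_J [Fintype Y] (rk : Y → ℕ) (t : Y → QT Y) (k : ℕ) :
    (Finset.univ.filter fun π : Equiv.Perm Y => ∃ J : Finset Y, J.card = k ∧
      ∀ y ∈ J, HF rk π J y (t y)).card ≤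
      (Fintype.card Y).choose k * ((Fintype.card Y).choose k *
        (Fintype.card Y - k).factorial) := by
  have hsub : (Finset.univ.filter fun π : Equiv.Perm Y => ∃ J : Finset Y, J.card = k ∧
      ∀ y ∈ J, HF rk π J y (t y)) ⊆
      (Finset.powersetCard k (Finset.univ : Finset Y)).biUnion fun J =>
        (Finset.powersetCard k (Finset.univ : Finset Y)).biUnion fun I =>
          Finset.univ.filter fun π : Equiv.Perm Y => (∀ x, x ∈ I ↔ π x ∈ J) ∧
            ∀ y ∈ J, HF rk π J y (t y) := by
    intro π hπ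
    obtain ⟨J, hJ, h⟩ := (Finset.mem_filter.1 hπ).2
    refine Finset.mem_biUnion.2 ⟨J, Finset.mem_powersetCard.2 ⟨Finset.subset_univ _, hJ⟩, ?_⟩
    refine Finset.mem_biUnion.2 ⟨J.map π.symm.toEmbedding,
      Finset.mem_powersetCard.2 ⟨Finset.subset_univ _, by rw [Finset.card_map, hJ]⟩, ?_⟩
    refine Finset.mem_filter.2 ⟨Finset.mem_univ _, fun x => ?_, h⟩
    constructor
    · intro hx
      obtain ⟨y, hy, e⟩ := Finset.mem_map.1 hx
      rw [← e]
      simpa using hy
    · intro hx
      exact Finset.mem_map.2 ⟨π x, hx, by simp⟩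
  refine (Finset.card_le_card hsub).trans ?_
  refine (Finset.card_biUnion_le_card_mul _ _ ((Fintype.card Y).choose k *
        (Fintype.card Y - k).factorial) fun J hJ => ?_).trans ?_
  · refine (Finset.card_biUnion_le_card_mul _ _ ((Fintype.card Y - k).factorial)
      fun I hI => ?_).trans ?_
    · have h1 := (Finset.mem_powersetCard.1 hJ).2
      have h2 := (Finset.mem_powersetCard.1 hI).2
      have := card_fixed_IJ rk t I J (h2.trans h1.symm)
      rwa [h1] at this
    · rw [Finset.card_powersetCard, Finset.card_univ]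
  · rw [Finset.card_powersetCard, Finset.card_univ]

theorem pow_le_factorial (k : ℕ) : k ^ k ≤ 3 ^ k * k.factorial := by
  have h1 : (k : ℝ) ^ k / k.factorial ≤ Real.exp k := Real.pow_div_factorial_le_exp _ (by positivity) _
  have h2 : Real.exp k ≤ 3 ^ k := by
    have : Real.exp k = Real.exp 1 ^ k := by rw [← Real.exp_nat_mul, mul_one]
    rw [this]
    exact pow_le_pow_left₀ (Real.exp_pos _).le (by linarith [Real.exp_one_lt_d9]) _
  have h3 : (k : ℝ) ^ k ≤ 3 ^ k * k.factorial := by
    rw [div_le_iff₀ (by positivity)] at h1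
    exact h1.trans (mul_le_mul_of_nonneg_right h2 (by positivity))
  exact_mod_cast h3

theorem choose_two_pow_le (N k : ℕ) (h : 18 * N ≤ k ^ 2) : N.choose k * 2 ^ k ≤ k.factorial := by
  have h1 : N.choose k * k.factorial ≤ N ^ k := by
    rw [mul_comm, ← Nat.descFactorial_eq_factorial_mul_choose]
    exact Nat.descFactorial_le_pow _ _
  have h2 : (N ^ k * 2 ^ k) * 9 ^ k ≤ (k.factorial * k.factorial) * 9 ^ k := by
    calc (N ^ k * 2 ^ k) * 9 ^ k = (18 * N) ^ k := by
          rw [← mul_pow, ← mul_pow]; congr 1; ring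
      _ ≤ (k ^ 2) ^ k := Nat.pow_le_pow_left h k
      _ = k ^ k * k ^ k := by rw [← pow_mul, ← pow_add]; congr 1; ring
      _ ≤ (3 ^ k * k.factorial) * (3 ^ k * k.factorial) :=
          Nat.mul_le_mul (pow_le_factorial k) (pow_le_factorial k)
      _ = (k.factorial * k.factorial) * 9 ^ k := by
          have : (9 : ℕ) ^ k = 3 ^ k * 3 ^ k := by rw [← mul_pow]; norm_num
          rw [this]; ring
  have h3 : N ^ k * 2 ^ k ≤ k.factorial * k.factorial :=
    Nat.le_of_mul_le_mul_right h2 (by positivity)
  have h4 : (N.choose k * 2 ^ k) * k.factorial ≤ k.factorial * k.factorial := by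
    calc (N.choose k * 2 ^ k) * k.factorial = (N.choose k * k.factorial) * 2 ^ k := by ring
      _ ≤ N ^ k * 2 ^ k := Nat.mul_le_mul_right _ h1
      _ ≤ _ := h3
  exact Nat.le_of_mul_le_mul_right h4 (Nat.factorial_pos _)

theorem choose_sq_factorial_le (N k : ℕ) (h : 18 * N ≤ k ^ 2) :
    2 ^ k * (N.choose k * (N.choose k * (N - k).factorial)) ≤ N.factorial := by
  rcases Nat.lt_or_ge N k with hk | hk
  · rw [Nat.choose_eq_zero_of_lt hk]; simp
  · calc 2 ^ k * (N.choose k * (N.choose k * (N - k).factorial))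
        = (N.choose k * 2 ^ k) * (N.choose k * (N - k).factorial) := by ring
      _ ≤ k.factorial * (N.choose k * (N - k).factorial) :=
          Nat.mul_le_mul_right _ (choose_two_pow_le N k h)
      _ = N.choose k * k.factorial * (N - k).factorial := by ring
      _ = N.factorial := Nat.choose_mul_factorial_mul_factorial hk

open Classical in
/-- The base lemma: few permutations are inverted at many points. -/
theorem perm_base [Fintype Y] (t : Y → QT Y) (d k : ℕ) (hd : ∀ y, Dep d (t y))
    (hk : 18 * Fintype.card Y ≤ k ^ 2) :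
    2 ^ k * (Finset.univ.filter fun π : Equiv.Perm Y => k * (d + 1) ≤
      (Finset.univ.filter fun y => hit π y (t y)).card).card ≤ (Fintype.card Y).factorial := by
  let rk : Y → ℕ := fun y => (Fintype.equivFin Y y : ℕ)
  have hrk : Function.Injective rk := fun a b h => (Fintype.equivFin Y).injective (Fin.ext h)
  refine le_trans (Nat.mul_le_mul_left _ ?_) (choose_sq_factorial_le _ k hk)
  refine le_trans (Finset.card_le_card ?_) (card_exists_J rk t k)
  intro π hπ
  have h := (Finset.mem_filter.1 hπ).2
  obtain ⟨J, hJ, hJc, hJf⟩ := greedy_J rk hrk (fun y => (vals π (t y)).toFinset) d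
    (fun y => (List.toFinset_card_le _).trans (vals_length π _ d (hd y))) k _ h
  refine Finset.mem_filter.2 ⟨Finset.mem_univ _, J, hJc, fun y hy => ?_⟩
  refine HF_of_hit rk π J y (t y) (Finset.mem_filter.1 (hJ hy)).2 fun y' hv hyJ hne => ?_
  exact hJf y hy y' hyJ (List.mem_toFinset.2 hv) hne

end Pool.Agent.TD
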