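import Pool.Agent.Lib_helper40.TDB.PermA
import Pool.Agent.Lib_helper64.TD.Defs

/-!
# Base case: adversaries against the secrets alone
-/

set_option autoImplicit false

namespace Pool.Agent.TD

open Pool.Agent.CK

/-- the oracle without tables -/
noncomputable abbrev O0 (S : Sec) : Lang := orc S fun _ _ => []

/-- the run of the tree meets a position with the property `P` -/
def asks {β : Type} (O : Lang) (P : Str → Prop) : DT β → Prop
  | DT.leaf _ => False
  | DT.node w n0 n1 => P w ∨ (if O w = true then asks O P n1 else asks O P n0)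

/-- change the first permutation of length `n` -/
def setG (S : Sec) (n : ℕ) (π : Equiv.Perm (X n)) : Sec := ⟨Function.update S.g n π, S.f⟩

/-- change the permutation with key `pk` -/
def setF (S : Sec) (n : ℕ) (pk : X n) (π : Equiv.Perm (X n)) : Sec :=
  ⟨S.g, Function.update S.f n (Function.update (S.f n) pk π)⟩

theorem GG_of (S : Sec) (n : ℕ) (z : Str) (h : z.length = n) : GG S z = (S.g n ⟨z, h⟩).1 := by
  subst h; rfl

theorem FF_of (S : Sec) (n : ℕ) (w : Str) (h : w.length = 2 * n) :
    FF S w = (S.f n (lf n w h) (rg n w h)).1 := by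
  obtain rfl : n = w.length / 2 := by omega
  rw [FF, dif_pos h]

theorem HH_of (S : Sec) (n : ℕ) (w : Str) (h : w.length = 2 * n) :
    HH S w = ((S.f n (S.g n (lf n w h))).symm (rg n w h)).1 := by
  obtain rfl : n = w.length / 2 := by omega
  rw [HH, dif_pos h]

/-- the position asks for the trapdoor of `pk` -/
def PG (S : Sec) (n : ℕ) (pk : X n) (w : Str) : Prop :=
  match tdec w with
  | none => False
  | some p => (p.1.1 = 1 ∧ ∃ h : p.1.2.length = n, S.g n ⟨p.1.2, h⟩ = pk) ∨
    (p.1.1 = 5 ∧ ∃ h : p.1.2.length = 2 * n, S.g n (lf n p.1.2 h) = pk)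

open Classical in
/-- questions to the first permutation of length `n` -/
noncomputable def cG {β : Type} (S : Sec) (n : ℕ) : DT β → QT (X n)
  | DT.leaf _ => QT.leaf
  | DT.node w n0 n1 => match tdec w with
    | none => cG S n n0
    | some p =>
      if h : p.1.1 = 1 ∧ p.1.2.length = n then
        QT.node ⟨p.1.2, h.2⟩ fun a => if bit a.1 p.2 = true then cG S n n1 else cG S n n0
      else if h : p.1.1 = 5 ∧ p.1.2.length = 2 * n then
        QT.node (lf n p.1.2 h.2) fun a =>
          if bit ((S.f n a).symm (rg n p.1.2 h.2)).1 p.2 = true then cG S n n1 else cG S n n0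
      else if O0 S w = true then cG S n n1 else cG S n n0

open Classical in
/-- questions to the permutation with key `pk` -/
noncomputable def cF (S : Sec) (n : ℕ) (pk : X n) : DT Str → QT (X n)
  | DT.leaf b => if h : b.length = n then QT.node ⟨b, h⟩ fun _ => QT.leaf else QT.leaf
  | DT.node w n0 n1 => match tdec w with
    | none => cF S n pk n0
    | some p =>
      if h : p.1.1 = 3 ∧ ∃ h : p.1.2.length = 2 * n, lf n p.1.2 h = pk then
        QT.node (rg n p.1.2 h.2.1) fun a =>
          if bit a.1 p.2 = true then cF S n pk n1 else cF S n pk n0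
      else if p.1.1 = 5 ∧ ∃ h : p.1.2.length = 2 * n, S.g n (lf n p.1.2 h) = pk then QT.leaf
      else if O0 S w = true then cF S n pk n1 else cF S n pk n0

theorem QT.Dep_succ {Y : Type} : ∀ (d : ℕ) (t : QT Y), QT.Dep d t → QT.Dep (d + 1) t
  | _, QT.leaf, _ => by simp [QT.Dep]
  | 0, QT.node _ _, h => by simp [QT.Dep] at h
  | d + 1, QT.node x k, h => fun a => QT.Dep_succ d (k a) (h a)

theorem cG_dep {β : Type} (S : Sec) (n : ℕ) : ∀ (t : DT β) (d : ℕ), t.depth ≤ d →
    QT.Dep d (cG S n t)
  | DT.leaf _, d, _ => by cases d <;> simp [cG, QT.Dep]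
  | DT.node w n0 n1, 0, h => by
    rw [DT.depth_node] at h; omega
  | DT.node w n0 n1, d + 1, h => by
    rw [DT.depth_node] at h
    have h0 := cG_dep S n n0 d (by omega)
    have h1 := cG_dep S n n1 d (by omega)
    rw [cG]
    split
    · exact QT.Dep_succ _ _ h0
    · split_ifs
      · intro a; dsimp only; split_ifs
        · exact h1
        · exact h0
      · intro a; dsimp only; split_ifs
        · exact h1
        · exact h0
      · exact QT.Dep_succ _ _ h1
      · exact QT.Dep_succ _ _ h0

theorem cF_dep (S : Sec) (n : ℕ) (pk : X n) : ∀ (t : DT Str) (d : ℕ), t.depth ≤ d →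
    QT.Dep (d + 1) (cF S n pk t)
  | DT.leaf _, d, _ => by
    rw [cF]
    split_ifs
    · intro a
      cases d <;> simp [QT.Dep]
    · simp [QT.Dep]
  | DT.node w n0 n1, 0, h => by
    rw [DT.depth_node] at h; omega
  | DT.node w n0 n1, d + 1, h => by
    rw [DT.depth_node] at h
    have h0 := cF_dep S n pk n0 d (by omega)
    have h1 := cF_dep S n pk n1 d (by omega)
    rw [cF]
    split
    · exact QT.Dep_succ _ _ h0
    · split_ifs
      · intro a; dsimp only; split_ifs
        · exact h1
        · exact h0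
      · simp [QT.Dep]
      · exact QT.Dep_succ _ _ h1
      · exact QT.Dep_succ _ _ h0

theorem O0_some (S : Sec) (w : Str) (p : (ℕ × List Bool) × (ℕ × Bool)) (h : tdec w = some p) :
    O0 S w = bit (val S (fun _ _ => []) p.1.1 p.1.2) p.2 := by
  unfold O0 orc
  rw [h]

theorem O0_none (S : Sec) (w : Str) (h : tdec w = none) : O0 S w = false := by
  unfold O0 orc
  rw [h]

/-- The secrets `S` and `S'` agree except possibly for the first permutation of length `n`. -/
def AgG (S S' : Sec) (n : ℕ) : Prop := S.f = S'.f ∧ ∀ m, m ≠ n → S.g m = S'.g m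

/-- The secrets `S` and `S'` agree except possibly for the permutation with key `pk`. -/
def AgF (S S' : Sec) (n : ℕ) (pk : X n) : Prop :=
  S.g = S'.g ∧ (∀ m, m ≠ n → S.f m = S'.f m) ∧ ∀ pk', pk' ≠ pk → S.f n pk' = S'.f n pk'

theorem HH_congr_length (S S' : Sec) (w : Str) (h : ∀ m, w.length = 2 * m → S.f m = S'.f m ∧
    S.g m = S'.g m) : HH S w = HH S' w := by
  by_cases hw : w.length = 2 * (w.length / 2)
  · rw [HH_of S _ w hw, HH_of S' _ w hw, (h _ hw).1, (h _ hw).2]
  · rw [HH, HH, dif_neg hw, dif_neg hw]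

theorem O0_G (S S' : Sec) (n : ℕ) (hS : AgG S S' n) (w : Str)
    (p : (ℕ × List Bool) × (ℕ × Bool)) (hp : tdec w = some p)
    (h1 : ¬ (p.1.1 = 1 ∧ p.1.2.length = n)) (h5 : ¬ (p.1.1 = 5 ∧ p.1.2.length = 2 * n)) :
    O0 S w = O0 S' w := by
  rw [O0_some _ _ _ hp, O0_some _ _ _ hp]
  congr 1
  unfold val
  split_ifs with e1 e3 e5
  · rw [GG_of S _ _ rfl, GG_of S' _ _ rfl, hS.2 _ fun h => h1 ⟨e1, h⟩]
  · unfold FF
    rw [hS.1]
  · refine HH_congr_length S S' _ fun m hm => ⟨congrFun hS.1 m, hS.2 m fun h => h5 ⟨e5, h ▸ hm⟩⟩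
  · rfl

theorem cG_congr {β : Type} (S S' : Sec) (n : ℕ) (hS : AgG S S' n) : ∀ t : DT β,
    cG S n t = cG S' n t
  | DT.leaf _ => rfl
  | DT.node w n0 n1 => by
    have h0 := cG_congr S S' n hS n0
    have h1 := cG_congr S S' n hS n1
    rw [cG, cG]
    split
    · exact h0
    · next p hp =>
      rw [h0, h1, hS.1]
      split_ifs with a1 a5 a6 a7 a8
      · rfl
      · rfl
      · rfl
      · rw [O0_G S S' n hS w p hp a1 a5] at a6
        exact absurd a6 a7
      · rw [O0_G S S' n hS w p hp a1 a5] at a6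
        exact absurd a8 a6
      · rfl

theorem hit_cG {β : Type} (S : Sec) (n : ℕ) (pk : X n) : ∀ t : DT β,
    asks (O0 S) (PG S n pk) t → QT.hit (S.g n) pk (cG S n t)
  | DT.leaf _, h => by simp [asks] at h
  | DT.node w n0 n1, h => by
    have h0 := hit_cG S n pk n0
    have h1 := hit_cG S n pk n1
    rw [asks] at h
    rw [cG]
    split
    · next hp =>
      rw [O0_none S w hp] at h
      unfold PG at h
      rw [hp] at h
      simp only [false_or, Bool.false_eq_true, if_false] at h
      exact h0 h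
    · next p hp =>
      rw [O0_some S w p hp] at h
      have hPG : PG S n pk w ↔ (p.1.1 = 1 ∧ ∃ h : p.1.2.length = n, S.g n ⟨p.1.2, h⟩ = pk) ∨
          (p.1.1 = 5 ∧ ∃ h : p.1.2.length = 2 * n, S.g n (lf n p.1.2 h) = pk) := by
        unfold PG
        rw [hp]
      rw [hPG] at h
      split_ifs with a1 a5
      · rw [QT.hit]
        rcases h with (⟨_, h, h'⟩ | ⟨h, _⟩) | h
        · exact Or.inl h'
        · omega
        · right
          rw [val, if_pos a1.1, GG_of S n _ a1.2] at h
          split_ifs at h ⊢ with c1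
          · exact h1 h
          · exact h0 h
      · rw [QT.hit]
        rcases h with (⟨h, _⟩ | ⟨_, h, h'⟩) | h
        · omega
        · exact Or.inl h'
        · right
          have hv : val S (fun _ _ => []) p.1.1 p.1.2 = HH S p.1.2 := by
            unfold val
            rw [if_neg (by rw [a5.1]; norm_num), if_neg (by rw [a5.1]; norm_num), if_pos a5.1]
          rw [hv, HH_of S n _ a5.2] at h
          split_ifs at h ⊢ with c1
          · exact h1 h
          · exact h0 h
      · rw [← O0_some S w p hp] at h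
        rcases h with (⟨h, h', _⟩ | ⟨h, h', _⟩) | h
        · exact absurd ⟨h, h'⟩ a1
        · exact absurd ⟨h, h'⟩ a5
        · rename_i c1
          rw [if_pos c1] at h
          exact h1 h
      · rw [← O0_some S w p hp] at h
        rcases h with (⟨h, h', _⟩ | ⟨h, h', _⟩) | h
        · exact absurd ⟨h, h'⟩ a1
        · exact absurd ⟨h, h'⟩ a5
        · rename_i c1
          rw [if_neg c1] at h
          exact h0 h

theorem O0_F (S S' : Sec) (n : ℕ) (pk : X n) (hS : AgF S S' n pk) (w : Str)
    (p : (ℕ × List Bool) × (ℕ × Bool)) (hp : tdec w = some p)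
    (h1 : ¬ (p.1.1 = 3 ∧ ∃ h : p.1.2.length = 2 * n, lf n p.1.2 h = pk))
    (h5 : ¬ (p.1.1 = 5 ∧ ∃ h : p.1.2.length = 2 * n, S.g n (lf n p.1.2 h) = pk)) :
    O0 S w = O0 S' w := by
  rw [O0_some _ _ _ hp, O0_some _ _ _ hp]
  congr 1
  unfold val
  split_ifs with e1 e3 e5
  · rw [GG_of S _ _ rfl, GG_of S' _ _ rfl, hS.1]
  · by_cases hw : p.1.2.length = 2 * (p.1.2.length / 2)
    · rw [FF_of S _ _ hw, FF_of S' _ _ hw]
      by_cases hn : p.1.2.length / 2 = n
      · subst hn
        rw [hS.2.2 _ fun h => h1 ⟨e3, hw, h⟩]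
      · rw [hS.2.1 _ hn]
    · rw [FF, FF, dif_neg hw, dif_neg hw]
  · by_cases hw : p.1.2.length = 2 * (p.1.2.length / 2)
    · rw [HH_of S _ _ hw, HH_of S' _ _ hw, ← hS.1]
      by_cases hn : p.1.2.length / 2 = n
      · subst hn
        rw [hS.2.2 _ fun h => h5 ⟨e5, hw, h⟩]
      · rw [hS.2.1 _ hn]
    · rw [HH, HH, dif_neg hw, dif_neg hw]
  · rfl

theorem cF_congr (S S' : Sec) (n : ℕ) (pk : X n) (hS : AgF S S' n pk) : ∀ t : DT Str,
    cF S n pk t = cF S' n pk t
  | DT.leaf _ => rfl
  | DT.node w n0 n1 => by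
    have h0 := cF_congr S S' n pk hS n0
    have h1 := cF_congr S S' n pk hS n1
    rw [cF, cF]
    split
    · exact h0
    · next p hp =>
      rw [h0, h1, hS.1]
      split_ifs with a1 a5 a6 a7 a8
      · rfl
      · rfl
      · rfl
      · rw [← hS.1] at a5
        rw [O0_F S S' n pk hS w p hp a1 a5] at a6
        exact absurd a6 a7
      · rw [← hS.1] at a5
        rw [O0_F S S' n pk hS w p hp a1 a5] at a6
        exact absurd a8 a6
      · rfl

theorem hit_cF (S : Sec) (n : ℕ) (pk y : X n) : ∀ t : DT Str,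
    t.eval (O0 S) = ((S.f n pk).symm y).1 →
      asks (O0 S) (PG S n pk) t ∨ QT.hit (S.f n pk) y (cF S n pk t)
  | DT.leaf b, h => by
    right
    have hb : b.length = n := by
      rw [DT.eval_leaf] at h
      rw [h]
      exact ((S.f n pk).symm y).2
    rw [cF, dif_pos hb, QT.hit]
    left
    have : (⟨b, hb⟩ : X n) = (S.f n pk).symm y := Subtype.ext h
    rw [this, Equiv.apply_symm_apply]
  | DT.node w n0 n1, h => by
    have h0 := hit_cF S n pk y n0
    have h1 := hit_cF S n pk y n1
    rw [asks]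
    rw [cF]
    rw [DT.eval_node] at h
    cases hp : tdec w with
    | none =>
      rw [O0_none S w hp] at h ⊢
      simp only [Bool.false_eq_true, if_false] at h ⊢
      exact (h0 h).imp Or.inr id
    | some p =>
      dsimp only
      have hPG : PG S n pk w ↔ (p.1.1 = 1 ∧ ∃ h : p.1.2.length = n, S.g n ⟨p.1.2, h⟩ = pk) ∨
          (p.1.1 = 5 ∧ ∃ h : p.1.2.length = 2 * n, S.g n (lf n p.1.2 h) = pk) := by
        unfold PG
        rw [hp]
      by_cases a1 : p.1.1 = 3 ∧ ∃ h : p.1.2.length = 2 * n, lf n p.1.2 h = pk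
      · rw [dif_pos a1, QT.hit]
        have hv : O0 S w = bit (S.f n pk (rg n p.1.2 a1.2.1)).1 p.2 := by
          rw [O0_some S w p hp]
          unfold val
          rw [if_neg (by rw [a1.1]; norm_num), if_pos a1.1, FF_of S n _ a1.2.1, a1.2.2]
        rw [← hv]
        split_ifs at h ⊢ with c1
        · exact (h1 h).imp Or.inr Or.inr
        · exact (h0 h).imp Or.inr Or.inr
      · by_cases a5 : p.1.1 = 5 ∧ ∃ h : p.1.2.length = 2 * n, S.g n (lf n p.1.2 h) = pk
        · exact Or.inl (Or.inl (hPG.2 (Or.inr a5)))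
        · rw [dif_neg a1, if_neg a5]
          split_ifs at h ⊢ with c1
          · exact (h1 h).imp Or.inr id
          · exact (h0 h).imp Or.inr id

end Pool.Agent.TD
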