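import Pool.Agent.Lib_helper40.TDB.PermC

/-!
# Base case: the union bound
-/

set_option autoImplicit false

namespace Pool.Agent.TD

open Pool.Agent.CK

theorem base_num1 (n : ℕ) (h : NumN n) : 18 * 2 ^ n ≤ kk n ^ 2 := by
  have h1 := h.hkk
  have e : kk n ^ 2 = 2 ^ (2 * (n - (2 * Lam n + 2 * KK n + 3))) := by
    rw [kk, ← pow_mul, mul_comm]
  rw [e]
  calc 18 * 2 ^ n ≤ 32 * 2 ^ n := Nat.mul_le_mul_right _ (by norm_num)
    _ = 2 ^ (n + 5) := by rw [pow_add]; ring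
    _ ≤ _ := Nat.pow_le_pow_right (by norm_num) (by omega)

theorem base_num2 (n : ℕ) (h : NumN n) :
    Del 0 n * (2 ^ n * (kk n * (dd n + 2)) + 2 ^ n * (kk n * (dd n + 2))) < 4 ^ n := by
  have h1 := h.hkk
  have h2 : 1 ≤ Lam n := by unfold Lam; exact Nat.le_add_left _ _
  have h3 : dd n + 2 ≤ 2 ^ (Lam n + 1) := by
    have : 2 ^ 1 ≤ 2 ^ Lam n := Nat.pow_le_pow_right (by norm_num) h2
    rw [dd, pow_succ]
    omega
  have h4 : (4 : ℕ) ^ n = 2 ^ (2 * n) := by rw [pow_mul]; norm_num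
  have h5 : 2 ^ (2 * n - 1) < 2 ^ (2 * n) := Nat.pow_lt_pow_right (by norm_num) (by omega)
  rw [h4]
  refine lt_of_le_of_lt ?_ h5
  calc Del 0 n * (2 ^ n * (kk n * (dd n + 2)) + 2 ^ n * (kk n * (dd n + 2)))
      = Del 0 n * 2 ^ (n + 1) * kk n * (dd n + 2) := by rw [pow_succ]; ring
    _ ≤ Del 0 n * 2 ^ (n + 1) * kk n * 2 ^ (Lam n + 1) := Nat.mul_le_mul_left _ h3
    _ = 2 ^ ((Lam n + 2 * (KK n - 0)) + (n + 1) + (n - (2 * Lam n + 2 * KK n + 3)) +
        (Lam n + 1)) := by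
        rw [Del, kk, ← pow_add, ← pow_add, ← pow_add]
    _ ≤ _ := Nat.pow_le_pow_right (by norm_num) (by omega)

open Classical in
theorem base_level (N : ℕ) (n : Fin (N + 1)) (F : Set (X (2 * (n : ℕ)) → DT Str))
    (hfin : F.Finite) (a d k : ℕ) (hcard : F.ncard ≤ 2 ^ a)
    (hd : ∀ A ∈ F, ∀ x, (A x).depth ≤ d) (hk : 18 * 2 ^ (n : ℕ) ≤ k ^ 2)
    (hka : a + 2 * n + 3 ≤ k) :
    2 ^ ((n : ℕ) + 2) * (Finset.univ.filter fun ω : OM N => ∃ A ∈ F,
      (∃ y, k * (d + 2) ≤ hG (SO N ω) n A y) ∨ ∃ pk, k * (d + 2) ≤ hF (SO N ω) n A pk).card ≤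
      Fintype.card (OM N) := by
  set c := Fintype.card (OM N) / 2 ^ k with hc
  have hG1 : ∀ A ∈ F, ∀ y : X n,
      (Finset.univ.filter fun ω : OM N => k * (d + 2) ≤ hG (SO N ω) n A y).card ≤ c := by
    intro A hA y
    rw [hc, Nat.le_div_iff_mul_le (by positivity), mul_comm]
    exact count_G N n A d k (hd A hA) hk y
  have hF1 : ∀ A ∈ F, ∀ y : X n,
      (Finset.univ.filter fun ω : OM N => k * (d + 2) ≤ hF (SO N ω) n A y).card ≤ c := by
    intro A hA y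
    rw [hc, Nat.le_div_iff_mul_le (by positivity), mul_comm]
    exact count_F N n A d k (hd A hA) hk y
  have hsub : (Finset.univ.filter fun ω : OM N => ∃ A ∈ F,
      (∃ y, k * (d + 2) ≤ hG (SO N ω) n A y) ∨ ∃ pk, k * (d + 2) ≤ hF (SO N ω) n A pk) ⊆
      hfin.toFinset.biUnion fun A =>
        ((Finset.univ : Finset (X n)).biUnion fun y =>
          Finset.univ.filter fun ω : OM N => k * (d + 2) ≤ hG (SO N ω) n A y) ∪
        ((Finset.univ : Finset (X n)).biUnion fun pk =>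
          Finset.univ.filter fun ω : OM N => k * (d + 2) ≤ hF (SO N ω) n A pk) := by
    intro ω hω
    obtain ⟨A, hA, h⟩ := (Finset.mem_filter.1 hω).2
    refine Finset.mem_biUnion.2 ⟨A, (Set.Finite.mem_toFinset hfin).2 hA, ?_⟩
    rcases h with ⟨y, h⟩ | ⟨pk, h⟩
    · exact Finset.mem_union_left _ (Finset.mem_biUnion.2 ⟨y, Finset.mem_univ _,
        Finset.mem_filter.2 ⟨Finset.mem_univ _, h⟩⟩)
    · exact Finset.mem_union_right _ (Finset.mem_biUnion.2 ⟨pk, Finset.mem_univ _,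
        Finset.mem_filter.2 ⟨Finset.mem_univ _, h⟩⟩)
  have hcd : (Finset.univ.filter fun ω : OM N => ∃ A ∈ F,
      (∃ y, k * (d + 2) ≤ hG (SO N ω) n A y) ∨ ∃ pk, k * (d + 2) ≤ hF (SO N ω) n A pk).card ≤
      2 ^ a * (2 ^ ((n : ℕ) + 1) * c) := by
    refine (Finset.card_le_card hsub).trans ?_
    refine (Finset.card_biUnion_le_card_mul _ _ (2 ^ ((n : ℕ) + 1) * c) fun A hA => ?_).trans ?_
    · have hA' : A ∈ F := (Set.Finite.mem_toFinset hfin).1 hA
      refine (Finset.card_union_le _ _).trans ?_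
      have b1 := Finset.card_biUnion_le_card_mul (Finset.univ : Finset (X n))
        (fun y => Finset.univ.filter fun ω : OM N => k * (d + 2) ≤ hG (SO N ω) n A y) c
        fun y _ => hG1 A hA' y
      have b2 := Finset.card_biUnion_le_card_mul (Finset.univ : Finset (X n))
        (fun y => Finset.univ.filter fun ω : OM N => k * (d + 2) ≤ hF (SO N ω) n A y) c
        fun y _ => hF1 A hA' y
      rw [Finset.card_univ, card_X_TD] at b1 b2
      have e : 2 ^ ((n : ℕ) + 1) * c = 2 ^ (n : ℕ) * c + 2 ^ (n : ℕ) * c := by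
        rw [pow_succ]; ring
      rw [e]
      exact Nat.add_le_add b1 b2
    · refine Nat.mul_le_mul_right _ ?_
      rw [← Set.ncard_eq_toFinset_card F hfin]
      exact hcard
  calc 2 ^ ((n : ℕ) + 2) * (Finset.univ.filter fun ω : OM N => ∃ A ∈ F,
      (∃ y, k * (d + 2) ≤ hG (SO N ω) n A y) ∨ ∃ pk, k * (d + 2) ≤ hF (SO N ω) n A pk).card
      ≤ 2 ^ ((n : ℕ) + 2) * (2 ^ a * (2 ^ ((n : ℕ) + 1) * c)) := Nat.mul_le_mul_left _ hcd
    _ = 2 ^ (a + 2 * n + 3) * c := by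
        have : a + 2 * (n : ℕ) + 3 = ((n : ℕ) + 2) + a + ((n : ℕ) + 1) := by ring
        rw [this, pow_add, pow_add]; ring
    _ ≤ 2 ^ k * c := Nat.mul_le_mul_right _ (Nat.pow_le_pow_right (by norm_num) hka)
    _ ≤ Fintype.card (OM N) := Nat.mul_div_le _ _

/-- Base case: there are secrets that defeat a given small family of adversaries. -/
theorem base (n0 Nh : ℕ) (hn : ∀ n, n0 ≤ n → NumN n) (Fm : Fam) (hBd : Bdd n0 0 Fm)
    (hemp : ∀ n, Nh < n → Fm n = ∅) : ∃ S : Sec, Def n0 0 S (orc S fun _ _ => []) Fm := by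
  classical
  by_contra hno
  have hbad : ∀ ω : OM Nh, ∃ n : Fin (Nh + 1), n0 ≤ n ∧ ∃ A ∈ Fm n,
      (∃ y, kk n * (dd n + 2) ≤ hG (SO Nh ω) n A y) ∨
        ∃ pk, kk n * (dd n + 2) ≤ hF (SO Nh ω) n A pk := by
    intro ω
    by_contra h
    refine hno ⟨SO Nh ω, fun n hn0 A hA => ?_⟩
    have hnN : n < Nh + 1 := by
      by_contra hc
      rw [hemp n (by omega)] at hA
      exact hA
    have hall : (∀ y, hG (SO Nh ω) n A y < kk n * (dd n + 2)) ∧
        ∀ pk, hF (SO Nh ω) n A pk < kk n * (dd n + 2) := by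
      constructor
      · intro y
        by_contra hc
        exact h ⟨⟨n, hnN⟩, hn0, A, hA, Or.inl ⟨y, not_lt.1 hc⟩⟩
      · intro pk
        by_contra hc
        exact h ⟨⟨n, hnN⟩, hn0, A, hA, Or.inr ⟨pk, not_lt.1 hc⟩⟩
    have h1 := hits_le (SO Nh ω) n A
    have h2 : ∑ y, hG (SO Nh ω) n A y ≤ 2 ^ n * (kk n * (dd n + 2)) := by
      refine (Finset.sum_le_sum fun y _ => (hall.1 y).le).trans ?_
      rw [Finset.sum_const, Finset.card_univ, card_X_TD, smul_eq_mul]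
    have h3 : ∑ y, hF (SO Nh ω) n A y ≤ 2 ^ n * (kk n * (dd n + 2)) := by
      refine (Finset.sum_le_sum fun y _ => (hall.2 y).le).trans ?_
      rw [Finset.sum_const, Finset.card_univ, card_X_TD, smul_eq_mul]
    refine lt_of_le_of_lt ?_ (base_num2 n (hn n hn0))
    exact Nat.mul_le_mul_left _ (h1.trans (Nat.add_le_add h2 h3))
  have hcov : (Finset.univ : Finset (OM Nh)) ⊆
      (Finset.univ : Finset (Fin (Nh + 1))).biUnion fun n =>
        if n0 ≤ n then Finset.univ.filter fun ω : OM Nh => ∃ A ∈ Fm n,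
          (∃ y, kk n * (dd n + 2) ≤ hG (SO Nh ω) n A y) ∨
            ∃ pk, kk n * (dd n + 2) ≤ hF (SO Nh ω) n A pk else ∅ := by
    intro ω _
    obtain ⟨n, hn0, h⟩ := hbad ω
    refine Finset.mem_biUnion.2 ⟨n, Finset.mem_univ _, ?_⟩
    rw [if_pos hn0]
    exact Finset.mem_filter.2 ⟨Finset.mem_univ _, h⟩
  have hone : ∀ n : Fin (Nh + 1), ((if n0 ≤ n then Finset.univ.filter fun ω : OM Nh => ∃ A ∈ Fm n,
      (∃ y, kk n * (dd n + 2) ≤ hG (SO Nh ω) n A y) ∨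
        ∃ pk, kk n * (dd n + 2) ≤ hF (SO Nh ω) n A pk else ∅ : Finset (OM Nh)).card : ℝ) ≤
      (Fintype.card (OM Nh) : ℝ) / 4 * (1 / 2) ^ (n : ℕ) := by
    intro n
    by_cases hn0 : n0 ≤ n
    · rw [if_pos hn0]
      have hN := hn n hn0
      have hB := hBd n hn0
      have h := base_level Nh n (Fm n) hB.1 (2 ^ aa 0 n) (dd n) (kk n) hB.2.1
        (fun A hA x => (hB.2.2 A hA x).1) (base_num1 n hN) hN.hc
      have h' : (2 : ℝ) ^ ((n : ℕ) + 2) * ((Finset.univ.filter fun ω : OM Nh => ∃ A ∈ Fm n,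
          (∃ y, kk n * (dd n + 2) ≤ hG (SO Nh ω) n A y) ∨
            ∃ pk, kk n * (dd n + 2) ≤ hF (SO Nh ω) n A pk).card : ℝ) ≤
          (Fintype.card (OM Nh) : ℝ) := by exact_mod_cast h
      have e : (1 / 2 : ℝ) ^ (n : ℕ) * 2 ^ ((n : ℕ) + 2) = 4 := by
        rw [pow_add, ← mul_assoc, ← mul_pow]; norm_num
      have hp : (0 : ℝ) < 2 ^ ((n : ℕ) + 2) := by positivity
      rw [← mul_le_mul_iff_right₀ hp]
      refine h'.trans (le_of_eq ?_)
      calc (Fintype.card (OM Nh) : ℝ) = (Fintype.card (OM Nh) : ℝ) / 4 *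
            ((1 / 2 : ℝ) ^ (n : ℕ) * 2 ^ ((n : ℕ) + 2)) := by rw [e]; ring
        _ = _ := by ring
    · rw [if_neg hn0]
      simp only [Finset.card_empty, Nat.cast_zero]
      positivity
  have hsum := (Finset.card_le_card hcov).trans Finset.card_biUnion_le
  rw [Finset.card_univ] at hsum
  have hsum' : (Fintype.card (OM Nh) : ℝ) ≤ ∑ n : Fin (Nh + 1),
      (Fintype.card (OM Nh) : ℝ) / 4 * (1 / 2) ^ (n : ℕ) := by
    refine le_trans ?_ (Finset.sum_le_sum fun n _ => hone n)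
    rw [← Nat.cast_sum]
    exact_mod_cast hsum
  rw [← Finset.mul_sum, Fin.sum_univ_eq_sum_range fun n => (1 / 2 : ℝ) ^ n] at hsum'
  have hg := sum_geometric_two_le (Nh + 1)
  have hpos : (0 : ℝ) < Fintype.card (OM Nh) := by
    have : Nonempty (OM Nh) := ⟨(fun _ => 1, fun _ _ => 1)⟩
    exact_mod_cast Fintype.card_pos
  have h5 : (Fintype.card (OM Nh) : ℝ) / 4 * ∑ i ∈ Finset.range (Nh + 1), (1 / 2 : ℝ) ^ i ≤
      (Fintype.card (OM Nh) : ℝ) / 4 * 2 := mul_le_mul_of_nonneg_left hg (by positivity)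
  linarith

end Pool.Agent.TD
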