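import Pool.Agent.Lib_helper64.TD.Defs
import Pool.Agent.Lib_helper74.CKF.PROG2
import Pool.Agent.Lib_helper74.CKF.ADDR
import Pool.Agent.Lib_helper74.NE.Univ
import Pool.Agent.Lib_helper74.NE.ExtB
import Pool.Agent.Lib_helper74.NE.Bridge

/-!
# Programs: typed polynomial time, finite patches, unambiguous machines
-/

set_option autoImplicit false

namespace Pool.Agent.TD

open Pool.Agent.CK Pool.Agent.CKP

variable {O : Lang} {γ : Type} [ToD γ]

theorem ofBits_snoc_inj {l l' : List Bool} (h : ofBits (l ++ [true]) = ofBits (l' ++ [true])) :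
    l = l' := by
  have h1 := bits_ofBits_snoc l
  have h2 := bits_ofBits_snoc l'
  rw [h, h2] at h1
  exact (List.append_cancel_right h1).symm

theorem ptime_list_eq {f g : γ → List Bool} (hf : PTime O f) (hg : PTime O g) :
    PTime O (fun x => decide (f x = g x)) :=
  (PTime.nat_eq (PTime.ofBits (hf.append (PTime.const [true])))
    (PTime.ofBits (hg.append (PTime.const [true])))).of_eq fun x => by
      by_cases h : f x = g x
      · simp [h]
      · simp only [h, decide_false, decide_eq_false_iff_not]
        exact fun h' => h (ofBits_snoc_inj h')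

/-- both lists have a common `1` -/
def zipAny (l l' : List Bool) : Bool := (List.zipWith (fun a b => a && b) l l').any id

theorem zipAny_foldl : ∀ (l l' : List Bool) (b : Bool),
    (l.foldl (fun (s : List Bool × Bool) a => (s.1.tail, s.2 || (a && s.1.headD false)))
      (l', b)).2 = (b || zipAny l l')
  | [], l', b => by simp [zipAny]
  | a :: l, [], b => by
    rw [List.foldl_cons, zipAny_foldl]
    simp [zipAny]
  | a :: l, c :: l', b => by
    rw [List.foldl_cons, zipAny_foldl]
    simp [zipAny, Bool.or_assoc]

theorem ptime_zipAny {f g : γ → List Bool} (hf : PTime O f) (hg : PTime O g) :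
    PTime O (fun x => zipAny (f x) (g x)) := by
  have h := PTime.foldl_add (l := f) (i := fun x => (g x, false))
    (s := fun (_ : γ) (s : List Bool × Bool) (a : Bool) => (s.1.tail, s.2 || (a && s.1.headD false)))
    hf (hg.pair (PTime.const false))
    ((PTime.tail PTime.id.snd.fst.fst).pair (PTime.id.snd.fst.snd.or (PTime.id.snd.snd.and
      (PTime.headD PTime.id.snd.fst.fst (PTime.const false))))) 2 (by
      intro x b a _
      have h1 := sz_tail_le b.1
      have h2 : sz (b.2 || (a && b.1.headD false)) ≤ 3 := by
        cases (b.2 || (a && b.1.headD false)) <;> simp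
      have h3 : 1 ≤ sz b.2 := sz_pos _
      have h4 : sz b = sz b.1 + sz b.2 + 1 := sz_pair b.1 b.2
      rw [sz_pair, Polynomial.eval_ofNat, h4]
      omega)
  exact h.snd.of_eq fun x => by rw [zipAny_foldl]; simp

/-! ## Finite patches -/

theorem ptime_patch {f g : List Bool → List Bool} (hf : PTime O f) :
    ∀ l : List (List Bool), (∀ z, z ∉ l → g z = f z) → PTime O g
  | [], h => hf.of_eq fun z => (h z (by simp)).symm
  | a :: l, h => by
    classical
    have h1 : PTime O (fun z => if z = a then f z else g z) :=
      ptime_patch hf l fun z hz => by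
        by_cases hza : z = a
        · simp [hza]
        · rw [if_neg hza]
          exact h z (by simp [hza, hz])
    refine (PTime.ite (ptime_list_eq PTime.id (PTime.const a)) (PTime.const (g a)) h1).of_eq
      fun z => ?_
    by_cases hza : z = a
    · simp [hza]
    · simp [hza]

/-- A function that agrees with a function in `FP` on all long strings is in `FP`. -/
theorem inFP_patch (O : Lang) (f g : List Bool → List Bool) (L : ℕ) (hf : InFP O f)
    (h : ∀ z, L ≤ z.length → g z = f z) : InFP O g := by
  refine inFP_of (ptime_patch (ptime_of_inFP hf) (List.finite_length_lt Bool L).toFinset.toList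
    fun z hz => h z ?_)
  by_contra hc
  refine hz (Finset.mem_toList.2 ((Set.Finite.mem_toFinset _).2 ?_))
  show z.length < L
  omega

/-! ## The functions of the trapdoor family -/

theorem GG_length (S : Sec) (z : Str) : (GG S z).length = z.length :=
  (S.g z.length ⟨z, rfl⟩).2

theorem FF_length (S : Sec) (z : Str) : (FF S z).length ≤ z.length := by
  unfold FF
  split_ifs with h
  · exact le_of_eq_of_le (S.f _ _ _).2 (Nat.div_le_self _ _)
  · simp

theorem HH_length (S : Sec) (z : Str) : (HH S z).length ≤ z.length := by
  unfold HH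
  split_ifs with h
  · exact le_of_eq_of_le ((S.f _ _).symm _).2 (Nat.div_le_self _ _)
  · simp

theorem orc_taddr (S : Sec) (Tab : ℕ → Str → Str) (e : ℕ) (z : Str) (b : ℕ) (c : Bool) :
    orc S Tab (taddr e z b c) = bit (val S Tab e z) (b, c) := by
  unfold orc
  rw [tdec_taddr]

theorem le_alen (e : ℕ) (z : Str) (he : 1 ≤ e) : z.length ≤ alen e z := by
  unfold alen
  calc z.length ≤ z.length + 2 := by omega
    _ = (z.length + 2) ^ 1 := (pow_one _).symm
    _ ≤ (z.length + 2) ^ (e ^ 2) := Nat.pow_le_pow_right (by omega) (Nat.one_le_pow _ _ he)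

theorem inFP_GG (S : Sec) (Tab : ℕ → Str → Str) : InFP (orc S Tab) (GG S) :=
  inFP_read _ 1 _ (fun z => (GG_length S z).le.trans (le_alen 1 z le_rfl)) fun z b c => by
    rw [orc_taddr]
    rfl

theorem inFP_FF (S : Sec) (Tab : ℕ → Str → Str) : InFP (orc S Tab) (FF S) :=
  inFP_read _ 3 _ (fun z => (FF_length S z).trans (le_alen 3 z (by norm_num))) fun z b c => by
    rw [orc_taddr]
    rfl

theorem inFP_HH (S : Sec) (Tab : ℕ → Str → Str) : InFP (orc S Tab) (HH S) :=
  inFP_read _ 5 _ (fun z => (HH_length S z).trans (le_alen 5 z (by norm_num))) fun z b c => by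
    rw [orc_taddr]
    rfl

/-! ## The secret language -/

/-- Check that `y` is the secret of the string `w`. -/
def chk (S : Sec) (w y : Str) : Bool :=
  decide (w.length = (y ++ (y ++ y)).length) &&
    decide (FF S ((udrop (y ++ y) w.reverse).reverse ++ y) =
      udrop y (udrop y w.reverse).reverse)

theorem rev_drop_rev (w : Str) (k m : ℕ) (h : w.length = k + m) :
    (w.reverse.drop m).reverse = w.take k := by
  rw [List.drop_reverse, List.reverse_reverse, h, Nat.add_sub_cancel]

theorem chk_aux (S : Sec) (m : ℕ) (w y : Str) (hw : w.length = 3 * m) (hy : y.length = m) :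
    (FF S ((udrop (y ++ y) w.reverse).reverse ++ y) = udrop y (udrop y w.reverse).reverse) ↔
      y = vv S m ⟨w.take (2 * m), by rw [List.length_take]; omega⟩ := by
  have e1 : (udrop (y ++ y) w.reverse).reverse = w.take m := by
    rw [udrop_eq, List.length_append, hy, rev_drop_rev w m (m + m) (by omega)]
  have e2 : udrop y (udrop y w.reverse).reverse = (w.take (2 * m)).drop m := by
    rw [udrop_eq, udrop_eq, hy, rev_drop_rev w (2 * m) m (by omega)]
  have hl : (w.take m ++ y).length = 2 * m := by
    rw [List.length_append, List.length_take, hy, hw]; omega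
  have hm : w.length / 3 = m := by omega
  rw [e1, e2]
  have e3 : FF S (w.take m ++ y) = (S.f m (lf m _ hl) (rg m _ hl)).1 := by
    have h2 : (w.take m ++ y).length / 2 = m := by omega
    have : ∀ (n : ℕ) (hn : (w.take m ++ y).length = 2 * n), n = m →
        (S.f n (lf n _ hn) (rg n _ hn)).1 = (S.f m (lf m _ hl) (rg m _ hl)).1 := by
      intro n hn e
      subst e
      rfl
    rw [FF, dif_pos (by omega)]
    exact this _ _ h2
  rw [e3]
  unfold vv
  have e4 : lf m (w.take m ++ y) hl = lf m (w.take (2 * m)) (by rw [List.length_take]; omega) := by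
    apply Subtype.ext
    show (w.take m ++ y).take m = (w.take (2 * m)).take m
    rw [List.take_append_of_le_length (by rw [List.length_take]; omega), List.take_take,
      List.take_take]
    congr 1
    omega
  have e5 : rg m (w.take m ++ y) hl = ⟨y, hy⟩ := by
    apply Subtype.ext
    show (w.take m ++ y).drop m = y
    rw [List.drop_left' (by rw [List.length_take]; omega)]
  rw [e4, e5]
  constructor
  · intro h
    have h' : S.f m (lf m (w.take (2 * m)) (by rw [List.length_take]; omega)) ⟨y, hy⟩ =
        rg m (w.take (2 * m)) (by rw [List.length_take]; omega) := Subtype.ext h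
    rw [← h', Equiv.symm_apply_apply]
  · intro h
    have h' : (⟨y, hy⟩ : X m) = (S.f m (lf m (w.take (2 * m)) (by rw [List.length_take]; omega))).symm
        (rg m (w.take (2 * m)) (by rw [List.length_take]; omega)) := Subtype.ext h
    rw [h', Equiv.apply_symm_apply]
    rfl

/-- the secret that belongs to the string `w` -/
def sct (S : Sec) (m : ℕ) (w : Str) (h : w.length = 3 * m) : Str :=
  vv S m ⟨w.take (2 * m), by rw [List.length_take]; omega⟩

theorem sct_length (S : Sec) (m : ℕ) (w : Str) (h : w.length = 3 * m) :
    (sct S m w h).length = m := ((S.f m _).symm _).2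

theorem chk_iff (S : Sec) (m : ℕ) (w y : Str) (hw : w.length = 3 * m) :
    chk S w y = true ↔ y = sct S m w hw := by
  unfold chk
  rw [Bool.and_eq_true, decide_eq_true_iff, decide_eq_true_iff]
  simp only [List.length_append]
  constructor
  · rintro ⟨h1, h2⟩
    exact (chk_aux S m w y hw (by omega)).1 h2
  · intro h
    have hy : y.length = m := by rw [h, sct_length]
    exact ⟨by omega, (chk_aux S m w y hw hy).2 h⟩

theorem chk_false (S : Sec) (w y : Str) (hw : ∀ m, w.length ≠ 3 * m) : chk S w y = false := by
  unfold chk
  have : ¬ w.length = (y ++ (y ++ y)).length := by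
    simp only [List.length_append]
    intro h
    exact hw y.length (by omega)
  rw [decide_eq_false this, Bool.false_and]

theorem VV_of (S : Sec) (m : ℕ) (w : Str) (hw : w.length = 3 * m) :
    VV S w = zipAny (sct S m w hw) (w.drop (2 * m)) := by
  obtain rfl : m = w.length / 3 := by omega
  unfold VV
  rw [dif_pos hw]
  rfl

theorem VV_false (S : Sec) (w : Str) (hw : ∀ m, w.length ≠ 3 * m) : VV S w = false := by
  unfold VV
  rw [dif_neg (hw _)]

/-- verifier for the secret language -/
def ver1 (S : Sec) (p : Str × Str) : Bool := chk S p.1 p.2 && zipAny p.2 (udrop (p.2 ++ p.2) p.1)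

/-- verifier for the complement of the secret language -/
def ver0 (S : Sec) (p : Str × Str) : Bool :=
  (chk S p.1 p.2 && !zipAny p.2 (udrop (p.2 ++ p.2) p.1)) ||
    ((decide (p.1.length = (true :: (p.2 ++ (p.2 ++ p.2))).length) ||
      decide (p.1.length = (true :: true :: (p.2 ++ (p.2 ++ p.2))).length)) &&
      p.2.all fun b => !b)

theorem ptime_chk (S : Sec) (hF : PTime O (FF S)) : PTime O (fun p : Str × Str => chk S p.1 p.2) := by
  have h1 : PTime O (fun p : Str × Str => p.1) := PTime.id.fst
  have h2 : PTime O (fun p : Str × Str => p.2) := PTime.id.snd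
  refine (PTime.nat_eq h1.length (h2.append (h2.append h2)).length).and ?_
  refine ptime_list_eq (hF.comp ((((h2.append h2).udrop h1.reverse).reverse).append h2)) ?_
  exact h2.udrop (h2.udrop h1.reverse).reverse

theorem ptime_ver1 (S : Sec) (hF : PTime O (FF S)) : PTime O (ver1 S) := by
  have h1 : PTime O (fun p : Str × Str => p.1) := PTime.id.fst
  have h2 : PTime O (fun p : Str × Str => p.2) := PTime.id.snd
  exact (ptime_chk S hF).and (ptime_zipAny h2 ((h2.append h2).udrop h1))

theorem ptime_ver0 (S : Sec) (hF : PTime O (FF S)) : PTime O (ver0 S) := by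
  have h1 : PTime O (fun p : Str × Str => p.1) := PTime.id.fst
  have h2 : PTime O (fun p : Str × Str => p.2) := PTime.id.snd
  refine PTime.or ((ptime_chk S hF).and (ptime_zipAny h2 ((h2.append h2).udrop h1)).not) ?_
  refine PTime.and (PTime.or ?_ ?_) ?_
  · exact PTime.nat_eq h1.length ((PTime.const true).cons (h2.append (h2.append h2))).length
  · exact PTime.nat_eq h1.length
      ((PTime.const true).cons ((PTime.const true).cons (h2.append (h2.append h2)))).length
  · exact PTime.all (f := fun _ b => !b) h2 PTime.id.snd.not

theorem len_three (w : Str) : (∃ m, w.length = 3 * m) ∨ (∀ m, w.length ≠ 3 * m) := by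
  by_cases h : ∃ m, w.length = 3 * m
  · exact Or.inl h
  · exact Or.inr fun m hm => h ⟨m, hm⟩

theorem ver1_exists (S : Sec) (w : Str) (h : VV S w = true) :
    ∃ y : Str, y.length ≤ w.length ∧ ver1 S (w, y) = true := by
  rcases len_three w with ⟨m, hm⟩ | hw
  · refine ⟨sct S m w hm, by rw [sct_length]; omega, ?_⟩
    rw [VV_of S m w hm] at h
    unfold ver1
    rw [Bool.and_eq_true]
    refine ⟨(chk_iff S m w _ hm).2 rfl, ?_⟩
    rw [udrop_eq, List.length_append, sct_length, ← two_mul]
    exact h
  · rw [VV_false S w hw] at h
    exact absurd h (by simp)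

theorem ver1_sound (S : Sec) (w y : Str) (h : ver1 S (w, y) = true) : VV S w = true := by
  unfold ver1 at h
  rw [Bool.and_eq_true] at h
  rcases len_three w with ⟨m, hm⟩ | hw
  · have hy := (chk_iff S m w y hm).1 h.1
    rw [VV_of S m w hm, ← hy]
    have h2 := h.2
    have hl : y.length = m := by rw [hy, sct_length]
    rw [udrop_eq, List.length_append, hl, ← two_mul] at h2
    exact h2
  · rw [chk_false S w y hw] at h
    exact absurd h.1 (by simp)

theorem ver1_unique (S : Sec) (w y y' : Str) (h : ver1 S (w, y) = true)
    (h' : ver1 S (w, y') = true) : y = y' := by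
  unfold ver1 at h h'
  rw [Bool.and_eq_true] at h h'
  rcases len_three w with ⟨m, hm⟩ | hw
  · exact ((chk_iff S m w y hm).1 h.1).trans ((chk_iff S m w y' hm).1 h'.1).symm
  · rw [chk_false S w y hw] at h
    exact absurd h.1 (by simp)

theorem all_not_eq : ∀ (l : List Bool), (l.all fun b => !b) = true →
    l = List.replicate l.length false
  | [], _ => rfl
  | b :: l, h => by
    simp only [List.all_cons, Bool.and_eq_true, Bool.not_eq_true'] at h
    rw [List.length_cons, List.replicate_succ, h.1, ← all_not_eq l h.2]

theorem ver0_iff_of_len (S : Sec) (m : ℕ) (w y : Str) (hw : w.length = 3 * m) :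
    ver0 S (w, y) = true ↔ y = sct S m w hw ∧ VV S w = false := by
  unfold ver0
  have h1 : decide (w.length = (true :: (y ++ (y ++ y))).length) = false := by
    simp only [List.length_append, List.length_cons, decide_eq_false_iff_not]; omega
  have h2 : decide (w.length = (true :: true :: (y ++ (y ++ y))).length) = false := by
    simp only [List.length_append, List.length_cons, decide_eq_false_iff_not]; omega
  simp only [h1, h2, Bool.or_false, Bool.false_and, Bool.and_eq_true, Bool.not_eq_true']
  rw [chk_iff S m w y hw, VV_of S m w hw]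
  refine and_congr_right fun hy => ?_
  have hl : y.length = m := by rw [hy, sct_length]
  rw [udrop_eq, List.length_append, hl, ← two_mul, ← hy]

theorem ver0_iff_of_ne (S : Sec) (w y : Str) (hw : ∀ m, w.length ≠ 3 * m) :
    ver0 S (w, y) = true ↔ y = List.replicate (w.length / 3) false := by
  unfold ver0
  simp only [chk_false S w y hw, Bool.false_and, Bool.false_or, Bool.and_eq_true, Bool.or_eq_true,
    decide_eq_true_eq, List.length_append, List.length_cons]
  constructor
  · rintro ⟨h1, h2⟩
    have h3 := all_not_eq y h2
    have h4 : y.length = w.length / 3 := by omega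
    rw [← h4]
    exact h3
  · rintro rfl
    have := hw (w.length / 3)
    refine ⟨?_, ?_⟩
    · rw [List.length_replicate]; omega
    · simp

theorem ver0_exists (S : Sec) (w : Str) (h : (!VV S w) = true) :
    ∃ y : Str, y.length ≤ w.length ∧ ver0 S (w, y) = true := by
  rcases len_three w with ⟨m, hm⟩ | hw
  · refine ⟨sct S m w hm, by rw [sct_length]; omega, (ver0_iff_of_len S m w _ hm).2 ⟨rfl, ?_⟩⟩
    simpa using h
  · refine ⟨List.replicate (w.length / 3) false, ?_, (ver0_iff_of_ne S w _ hw).2 rfl⟩
    rw [List.length_replicate]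
    exact Nat.div_le_self _ _

theorem ver0_sound (S : Sec) (w y : Str) (h : ver0 S (w, y) = true) : (!VV S w) = true := by
  rcases len_three w with ⟨m, hm⟩ | hw
  · simp [((ver0_iff_of_len S m w y hm).1 h).2]
  · simp [VV_false S w hw]

theorem ver0_unique (S : Sec) (w y y' : Str) (h : ver0 S (w, y) = true)
    (h' : ver0 S (w, y') = true) : y = y' := by
  rcases len_three w with ⟨m, hm⟩ | hw
  · exact ((ver0_iff_of_len S m w y hm).1 h).1.trans ((ver0_iff_of_len S m w y' hm).1 h').1.symm
  · exact ((ver0_iff_of_ne S w y hw).1 h).trans ((ver0_iff_of_ne S w y' hw).1 h').symm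

theorem inNP_VV (S : Sec) (Tab : ℕ → Str → Str) : InNP (orc S Tab) (VV S) :=
  inNP_of (ptime_ver1 S (ptime_of_inFP (inFP_FF S Tab))) UPoly.id (ver1_exists S) (ver1_sound S)

end Pool.Agent.TD
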